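import Mathlib

set_option autoImplicit false

/-!
# The nested runs: the combinatorial part
-/

namespace Pool.Agent.W305.RH

/-- The states of the nested strategy: at stage `s` the number `E s 0` is (up to the factor
`2 ^ (- (s + n0))`) what has been added so far, `E s l` is the target of the run of level `l`,
`S s l` the stage at which it was started, `lam s` the level that is to move and `am s` the
amount. -/
structure Run where
  n0 : ℕ
  T : ℕ
  E : ℕ → ℕ → ℕ
  S : ℕ → ℕ → ℕ
  lam : ℕ → ℕ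
  am : ℕ → ℕ
  hT : T = 2 ^ (n0 + 1)
  E0 : ∀ l ≤ T, E 0 l = if l = T then 1 else 0
  S0 : ∀ l ≤ T, S 0 l = 0
  Es : ∀ s, ∀ l ≤ T, E (s + 1) l = if am s = 0 then 2 * E s l else
    if l + 1 = lam s then 2 * (E s 0 + am s) else 2 * E s l
  Ss : ∀ s, ∀ l ≤ T, S (s + 1) l = if am s = 0 then S s l else
    if l < lam s then s + 1 else S s l
  lle : ∀ s, lam s ≤ T + 1
  lnot : ∀ s, ∀ j < lam s, E s j ≤ E s 0
  lspec : ∀ s, lam s ≤ T → E s 0 < E s (lam s)
  lpos : ∀ s, 1 ≤ lam s
  ale : ∀ s, am s ≤ E s (lam s) - E s 0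
  aT : ∀ s, am s ≠ 0 → lam s ≤ T

namespace Run

variable (R : Run)

theorem T2 : 2 ≤ R.T := by
  rw [R.hT, pow_succ]
  have : 0 < 2 ^ R.n0 := by positivity
  omega

theorem lam_eq {s l : ℕ} (hl : l ≤ R.T) (h1 : R.E s 0 < R.E s l)
    (h2 : ∀ j < l, R.E s j ≤ R.E s 0) : R.lam s = l := by
  rcases lt_trichotomy (R.lam s) l with h | h | h
  · have := R.lspec s (by omega)
    have := h2 _ h
    omega
  · exact h
  · have := R.lnot s l h
    omega

theorem Es_wait {s : ℕ} (h : R.am s = 0) {l : ℕ} (hl : l ≤ R.T) :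
    R.E (s + 1) l = 2 * R.E s l := by
  rw [R.Es s l hl, if_pos h]

theorem Ss_wait {s : ℕ} (h : R.am s = 0) {l : ℕ} (hl : l ≤ R.T) :
    R.S (s + 1) l = R.S s l := by
  rw [R.Ss s l hl, if_pos h]

theorem Es_act {s : ℕ} (h : R.am s ≠ 0) {l : ℕ} (hl : l ≤ R.T) (h' : l + 1 = R.lam s) :
    R.E (s + 1) l = 2 * (R.E s 0 + R.am s) := by
  rw [R.Es s l hl, if_neg h, if_pos h']

theorem Es_ne {s : ℕ} {l : ℕ} (hl : l ≤ R.T) (h' : l + 1 ≠ R.lam s) :
    R.E (s + 1) l = 2 * R.E s l := by
  rw [R.Es s l hl, if_neg h']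
  split_ifs <;> rfl

theorem Ss_lt {s : ℕ} (h : R.am s ≠ 0) {l : ℕ} (h' : l < R.lam s) :
    R.S (s + 1) l = s + 1 := by
  have := R.aT s h
  rw [R.Ss s l (by omega), if_neg h, if_pos h']

theorem Ss_ge {s : ℕ} {l : ℕ} (hl : l ≤ R.T) (h' : R.lam s ≤ l) :
    R.S (s + 1) l = R.S s l := by
  rw [R.Ss s l hl, if_neg (not_lt.2 h')]
  split_ifs <;> rfl

theorem lam_zero : R.lam 0 = R.T := by
  have hT := R.T2
  refine R.lam_eq le_rfl ?_ ?_
  · rw [R.E0 0 (by omega), R.E0 R.T le_rfl, if_neg (by omega), if_pos rfl]; exact one_pos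
  · intro j hj
    rw [R.E0 0 (by omega), R.E0 j (by omega), if_neg (by omega)]
    exact Nat.zero_le _

theorem lam_wait {s : ℕ} (h : R.am s = 0) : R.lam (s + 1) = R.lam s := by
  by_cases hl : R.lam s ≤ R.T
  · refine R.lam_eq hl ?_ ?_
    · rw [R.Es_wait h (Nat.zero_le _), R.Es_wait h hl]
      have := R.lspec s hl
      omega
    · intro j hj
      rw [R.Es_wait h (Nat.zero_le _), R.Es_wait h (by omega)]
      have := R.lnot s j hj
      omega
  · have h1 := R.lle (s + 1)
    have h2 := R.lle s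
    by_contra h3
    have h4 : R.lam (s + 1) ≤ R.T := by omega
    have h5 := R.lspec _ h4
    rw [R.Es_wait h (Nat.zero_le _), R.Es_wait h h4] at h5
    have := R.lnot s (R.lam (s + 1)) (by omega)
    omega

theorem lam_act {s : ℕ} (h : R.am s ≠ 0) (h2 : 2 ≤ R.lam s) : R.lam (s + 1) = R.lam s - 1 := by
  have hT := R.aT s h
  have e0 : R.E (s + 1) 0 = 2 * R.E s 0 := R.Es_ne (Nat.zero_le _) (by omega)
  refine R.lam_eq (by omega) ?_ ?_
  · rw [e0, R.Es_act h (by omega) (by omega)]
    omega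
  · intro j hj
    rw [e0, R.Es_ne (by omega) (by omega)]
    have := R.lnot s j (by omega)
    omega

/-- the targets increase with the level -/
theorem mono (s : ℕ) : ∀ j k, R.lam s ≤ j → j ≤ k → k ≤ R.T → R.E s j ≤ R.E s k := by
  induction s with
  | zero =>
    intro j k _ h2 h3
    rw [R.E0 j (by omega), R.E0 k h3]
    split_ifs <;> omega
  | succ s ih =>
    intro j k h1 h2 h3
    by_cases ha : R.am s = 0
    · rw [R.lam_wait ha] at h1
      rw [R.Es_wait ha (by omega), R.Es_wait ha h3]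
      have := ih j k h1 h2 h3
      omega
    · have hT := R.aT s ha
      by_cases hl : R.lam s = 1
      · have h4 := R.lpos (s + 1)
        rw [R.Es_ne (by omega) (by omega), R.Es_ne h3 (by omega)]
        have := ih j k (by omega) h2 h3
        omega
      · have h5 := R.lpos s
        rw [R.lam_act ha (by omega)] at h1
        have h6 := R.ale s
        by_cases hj : j + 1 = R.lam s
        · rw [R.Es_act ha (by omega) hj]
          by_cases hk : k = j
          · rw [hk, R.Es_act ha (by omega) hj]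
          · rw [R.Es_ne h3 (by omega)]
            have := ih (R.lam s) k le_rfl (by omega) h3
            have := R.lspec s hT
            omega
        · rw [R.Es_ne (by omega) (by omega), R.Es_ne h3 (by omega)]
          have := ih j k (by omega) h2 h3
          omega

theorem S_le (s : ℕ) : ∀ l ≤ R.T, R.S s l ≤ s := by
  induction s with
  | zero => intro l hl; rw [R.S0 l hl]
  | succ s ih =>
    intro l hl
    rw [R.Ss s l hl]
    have := ih l hl
    split_ifs <;> omega

theorem S_anti (s : ℕ) : ∀ j k, j ≤ k → k ≤ R.T → R.S s k ≤ R.S s j := by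
  induction s with
  | zero => intro j k h1 h2; rw [R.S0 j (by omega), R.S0 k h2]
  | succ s ih =>
    intro j k h1 h2
    rw [R.Ss s j (by omega), R.Ss s k h2]
    have := ih j k h1 h2
    have := R.S_le s k h2
    split_ifs <;> omega

theorem S_top (s : ℕ) : R.S s R.T = 0 := by
  induction s with
  | zero => exact R.S0 _ le_rfl
  | succ s ih =>
    rw [R.Ss s _ le_rfl]
    split_ifs with h1 h2
    · exact ih
    · have := R.aT s h1
      omega
    · exact ih

theorem E_top (s : ℕ) : R.E s R.T = 2 ^ s := by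
  induction s with
  | zero => rw [R.E0 _ le_rfl, if_pos rfl]; rfl
  | succ s ih =>
    by_cases ha : R.am s = 0
    · rw [R.Es_wait ha le_rfl, ih, pow_succ]; ring
    · have := R.aT s ha
      rw [R.Es_ne le_rfl (by omega), ih, pow_succ]; ring

/-- what has been added -/
noncomputable def e (s : ℕ) : ℝ := (R.E s 0 : ℝ) / 2 ^ (s + R.n0)

/-- the target of level `j` (or what has been added, if this is more) -/
noncomputable def X (s j : ℕ) : ℝ := (max (R.E s j) (R.E s 0) : ℕ) / 2 ^ (s + R.n0)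

/-- the amount -/
noncomputable def r (s : ℕ) : ℝ := (R.am s : ℝ) / 2 ^ (s + R.n0)

theorem r_nonneg (s : ℕ) : 0 ≤ R.r s := by unfold r; positivity

theorem e_nonneg (s : ℕ) : 0 ≤ R.e s := by unfold e; positivity

theorem double (s m : ℕ) : ((2 * m : ℕ) : ℝ) / 2 ^ (s + 1 + R.n0) = (m : ℝ) / 2 ^ (s + R.n0) := by
  rw [show s + 1 + R.n0 = (s + R.n0) + 1 by ring, pow_succ]
  push_cast
  field_simp

theorem e_zero : R.e 0 = 0 := by
  have hT := R.T2
  unfold e
  rw [R.E0 0 (Nat.zero_le _), if_neg (by omega)]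
  simp

theorem e_ne {s : ℕ} (h : R.am s = 0 ∨ R.lam s ≠ 1) : R.e (s + 1) = R.e s := by
  unfold e
  have : R.E (s + 1) 0 = 2 * R.E s 0 := by
    rcases h with h | h
    · exact R.Es_wait h (Nat.zero_le _)
    · exact R.Es_ne (Nat.zero_le _) (by omega)
  rw [this, R.double]

theorem e_act {s : ℕ} (h1 : R.am s ≠ 0) (h : R.lam s = 1) : R.e (s + 1) = R.e s + R.r s := by
  unfold e r
  rw [R.Es_act h1 (Nat.zero_le _) (by omega), R.double]
  push_cast
  ring

theorem e_mono {s t : ℕ} (h : s ≤ t) : R.e s ≤ R.e t := by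
  induction t, h using Nat.le_induction with
  | base => exact le_rfl
  | succ t _ ih =>
    refine ih.trans ?_
    by_cases h1 : R.am t = 0 ∨ R.lam t ≠ 1
    · rw [R.e_ne h1]
    · push Not at h1
      rw [R.e_act h1.1 h1.2]
      have := R.r_nonneg t
      linarith

theorem X_lt {s j : ℕ} (h : j < R.lam s) : R.X s j = R.e s := by
  unfold X e
  rw [max_eq_right (R.lnot s j h)]

theorem X_wait {s j : ℕ} (h : R.am s = 0) (hj : j ≤ R.T) : R.X (s + 1) j = R.X s j := by
  unfold X
  rw [R.Es_wait h hj, R.Es_wait h (Nat.zero_le _),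
    show max (2 * R.E s j) (2 * R.E s 0) = 2 * max (R.E s j) (R.E s 0) by omega, R.double]

theorem X_act {s j : ℕ} (h : R.am s ≠ 0) (hj : j + 1 = R.lam s) :
    R.X (s + 1) j = R.e s + R.r s := by
  have hT := R.aT s h
  unfold X e r
  rw [R.Es_act h (by omega) hj]
  by_cases h0 : j = 0
  · subst h0
    rw [R.Es_act h (by omega) hj, max_self, R.double]
    push_cast
    ring
  · rw [R.Es_ne (Nat.zero_le _) (by omega), max_eq_left (by omega), R.double]
    push_cast
    ring

theorem X_above {s j : ℕ} (h : R.am s ≠ 0) (hj : R.lam s ≤ j) (hjT : j ≤ R.T) :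
    R.X (s + 1) j = R.X s j := by
  have hT := R.aT s h
  have h1 := R.mono s (R.lam s) j le_rfl hj hjT
  have h2 := R.lspec s hT
  have h3 := R.ale s
  unfold X
  rw [R.Es_ne hjT (by omega)]
  rw [max_eq_left (b := R.E s 0) (by omega)]
  by_cases h0 : R.lam s = 1
  · rw [R.Es_act h (Nat.zero_le _) (by omega), max_eq_left (by omega), R.double]
  · have := R.lpos s
    rw [R.Es_ne (Nat.zero_le _) (by omega), max_eq_left (by omega), R.double]

/-- if the last subrun is not younger than the run, nothing has been added -/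
theorem same (s : ℕ) : ∀ l, 1 ≤ l → l ≤ R.T → R.S s (l - 1) = R.S s l →
    l ≤ R.lam s ∧ R.e s = R.e (R.S s l) := by
  induction s with
  | zero =>
    intro l _ h2 _
    rw [R.lam_zero, R.S0 l h2]
    exact ⟨h2, rfl⟩
  | succ s ih =>
    intro l h1 h2 h3
    by_cases ha : R.am s = 0
    · rw [R.Ss_wait ha (by omega), R.Ss_wait ha h2] at h3
      obtain ⟨h4, h5⟩ := ih l h1 h2 h3
      rw [R.lam_wait ha, R.Ss_wait ha h2, R.e_ne (Or.inl ha)]
      exact ⟨h4, h5⟩
    · have hT := R.aT s ha
      rcases lt_trichotomy l (R.lam s) with hl | hl | hl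
      · rw [R.Ss_lt ha hl, R.lam_act ha (by omega)]
        exact ⟨by omega, rfl⟩
      · exfalso
        rw [R.Ss_lt ha (by omega), R.Ss_ge h2 (by omega)] at h3
        have := R.S_le s l h2
        omega
      · exfalso
        rw [R.Ss_ge (by omega) (by omega), R.Ss_ge h2 (by omega)] at h3
        have := (ih l h1 h2 h3).1
        omega

end Run

end Pool.Agent.W305.RH
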