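import Mathlib
import Pool.Agent.H561R3.Om.Meas
import Pool.Agent.W305.RH.Run

set_option autoImplicit false

/-!
# The nested runs: the masses
-/

namespace Pool.Agent.W305.RH

open Pool.Agent.H561R3.Om Classical

noncomputable def w (p : Str) : ℝ := (1 / 2 : ℝ) ^ p.length

theorem w_nonneg (p : Str) : 0 ≤ w p := by unfold w; positivity

/-- The finite sets of the programs that have halted, and of those whose output has been removed. -/
structure Mass where
  born : ℕ → Finset Str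
  gone : ℕ → Finset Str
  born_mono : ∀ s t, s ≤ t → born s ⊆ born t
  gone_mono : ∀ s t, s ≤ t → gone s ⊆ gone t
  gone_sub : ∀ s, gone s ⊆ born s
  len : ∀ s, ∀ p ∈ born s, p.length ≤ s
  pf : ∀ s, ∀ p ∈ born s, ∀ q ∈ born s, p <+: q → p = q

namespace Mass

variable (Q : Mass)

/-- the live mass, of those born by stage `a` -/
noncomputable def B (a s : ℕ) : ℝ := ∑ p ∈ Q.born a \ Q.gone s, w p
/-- the mass born after stage `a` and gone by stage `s` -/
noncomputable def F (a s : ℕ) : ℝ := ∑ p ∈ Q.gone s \ Q.born a, w p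
/-- the mass born after stage `a` up to stage `b` and gone by stage `s` -/
noncomputable def W (a b s : ℕ) : ℝ := ∑ p ∈ (Q.gone s ∩ Q.born b) \ Q.born a, w p
/-- the number of those born by stage `a` and gone by stage `s` -/
noncomputable def m (a s : ℕ) : ℕ := (Q.gone s ∩ Q.born a).card

theorem F_nonneg (a s : ℕ) : 0 ≤ Q.F a s := Finset.sum_nonneg fun _ _ => w_nonneg _
theorem W_nonneg (a b s : ℕ) : 0 ≤ Q.W a b s := Finset.sum_nonneg fun _ _ => w_nonneg _
theorem B_nonneg (a s : ℕ) : 0 ≤ Q.B a s := Finset.sum_nonneg fun _ _ => w_nonneg _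

theorem F_le (a s : ℕ) : Q.F a s ≤ 1 := by
  unfold F
  refine (Finset.sum_le_sum_of_subset_of_nonneg (t := Q.born s) ?_ fun _ _ _ => w_nonneg _).trans ?_
  · exact Finset.sdiff_subset.trans (Q.gone_sub s)
  · exact kraft _ (Q.pf s)

theorem m_le (a s : ℕ) : (Q.m a s : ℝ) ≤ 2 ^ a := by
  have h1 : Q.m a s ≤ (Q.born a).card := Finset.card_le_card Finset.inter_subset_right
  have h2 := kraft_nat _ (Q.pf a) a (Q.len a)
  have h3 : (Q.born a).card ≤ ∑ p ∈ Q.born a, 2 ^ (a - p.length) := by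
    rw [Finset.card_eq_sum_ones]
    exact Finset.sum_le_sum fun p _ => Nat.one_le_two_pow
  exact_mod_cast h1.trans (h3.trans h2)

theorem F_split {a b s : ℕ} (h : a ≤ b) : Q.F a s = Q.W a b s + Q.F b s := by
  unfold F W
  rw [← Finset.sum_union]
  · refine Finset.sum_congr ?_ fun _ _ => rfl
    ext p
    simp only [Finset.mem_sdiff, Finset.mem_union, Finset.mem_inter]
    constructor
    · rintro ⟨h1, h2⟩
      by_cases h3 : p ∈ Q.born b
      · exact Or.inl ⟨⟨h1, h3⟩, h2⟩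
      · exact Or.inr ⟨h1, h3⟩
    · rintro (⟨⟨h1, _⟩, h2⟩ | ⟨h1, h2⟩)
      · exact ⟨h1, h2⟩
      · exact ⟨h1, fun h3 => h2 (Q.born_mono a b h h3)⟩
  · rw [Finset.disjoint_left]
    intro p hp hq
    simp only [Finset.mem_sdiff, Finset.mem_inter] at hp hq
    exact hq.2 hp.1.2

theorem W_self {a s : ℕ} (h : a ≤ s) : Q.W a s s = Q.F a s := by
  unfold F W
  rw [Finset.inter_eq_left.2 (Q.gone_sub s)]

theorem F_mono {a s t : ℕ} (h : s ≤ t) : Q.F a s ≤ Q.F a t := by
  unfold F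
  refine Finset.sum_le_sum_of_subset_of_nonneg ?_ fun _ _ _ => w_nonneg _
  exact Finset.sdiff_subset_sdiff (Q.gone_mono s t h) le_rfl

theorem B_mono {a b s : ℕ} (h : a ≤ b) : Q.B a s ≤ Q.B b s := by
  unfold B
  refine Finset.sum_le_sum_of_subset_of_nonneg ?_ fun _ _ _ => w_nonneg _
  exact Finset.sdiff_subset_sdiff (Q.born_mono a b h) le_rfl

/-- those that leave between `s` and `s + 1`, born by `b`: the old ones and the new ones -/
noncomputable def dO (a b s : ℕ) : Finset Str :=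
  ((Q.gone (s + 1) ∩ Q.born b) \ Q.gone s) ∩ Q.born a
noncomputable def dN (a b s : ℕ) : Finset Str :=
  ((Q.gone (s + 1) ∩ Q.born b) \ Q.gone s) \ Q.born a

theorem B_step (a b s : ℕ) : Q.B b (s + 1) + (∑ p ∈ Q.dO a b s, w p + ∑ p ∈ Q.dN a b s, w p) =
    Q.B b s := by
  unfold B dO dN
  rw [← Finset.sum_union, ← Finset.sum_union]
  · refine Finset.sum_congr ?_ fun _ _ => rfl
    ext p
    have := Q.gone_mono s (s + 1) (Nat.le_succ s)
    simp only [Finset.mem_sdiff, Finset.mem_union, Finset.mem_inter]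
    constructor
    · rintro (⟨h1, h2⟩ | ⟨⟨⟨h1, h2⟩, h3⟩, h4⟩ | ⟨⟨⟨h1, h2⟩, h3⟩, h4⟩)
      · exact ⟨h1, fun h => h2 (this h)⟩
      · exact ⟨h2, h3⟩
      · exact ⟨h2, h3⟩
    · rintro ⟨h1, h2⟩
      by_cases h3 : p ∈ Q.gone (s + 1)
      · right
        by_cases h4 : p ∈ Q.born a
        · exact Or.inl ⟨⟨⟨h3, h1⟩, h2⟩, h4⟩
        · exact Or.inr ⟨⟨⟨h3, h1⟩, h2⟩, h4⟩
      · exact Or.inl ⟨h1, h3⟩
  · rw [Finset.disjoint_left]
    intro p hp hq
    simp only [Finset.mem_sdiff, Finset.mem_inter, Finset.mem_union] at hp hq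
    rcases hq with hq | hq
    · exact hp.2 hq.1.1.1
    · exact hp.2 hq.1.1.1
  · rw [Finset.disjoint_left]
    intro p hp hq
    simp only [Finset.mem_sdiff, Finset.mem_inter] at hp hq
    exact hq.2 hp.2

theorem W_step (a b s : ℕ) : Q.W a b s + ∑ p ∈ Q.dN a b s, w p ≤ Q.W a b (s + 1) := by
  unfold W dN
  rw [← Finset.sum_union]
  · refine Finset.sum_le_sum_of_subset_of_nonneg ?_ fun _ _ _ => w_nonneg _
    intro p hp
    have := Q.gone_mono s (s + 1) (Nat.le_succ s)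
    simp only [Finset.mem_sdiff, Finset.mem_union, Finset.mem_inter] at hp ⊢
    rcases hp with ⟨⟨h1, h2⟩, h3⟩ | ⟨⟨⟨h1, h2⟩, _⟩, h3⟩
    · exact ⟨⟨this h1, h2⟩, h3⟩
    · exact ⟨⟨h1, h2⟩, h3⟩
  · rw [Finset.disjoint_left]
    intro p hp hq
    simp only [Finset.mem_sdiff, Finset.mem_inter] at hp hq
    exact hq.1.2 hp.1.1

theorem m_step (a b s : ℕ) : Q.m a s + (Q.dO a b s).card ≤ Q.m a (s + 1) := by
  unfold m dO
  rw [← Finset.card_union_of_disjoint]
  · refine Finset.card_le_card ?_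
    intro p hp
    have := Q.gone_mono s (s + 1) (Nat.le_succ s)
    simp only [Finset.mem_sdiff, Finset.mem_union, Finset.mem_inter] at hp ⊢
    rcases hp with ⟨h1, h2⟩ | ⟨⟨⟨h1, _⟩, _⟩, h3⟩
    · exact ⟨this h1, h2⟩
    · exact ⟨h1, h3⟩
  · rw [Finset.disjoint_left]
    intro p hp hq
    simp only [Finset.mem_sdiff, Finset.mem_inter] at hp hq
    exact hq.1.2 hp.1

end Mass

section vdrop

variable {V : ℕ → Set IC} (hV : ∀ n, MeasureTheory.volume (openOf (V n)) ≤
  ENNReal.ofReal ((1 / 2 : ℝ) ^ n))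

include hV

/-- how `vv` decreases when some old and some new mass leaves -/
theorem vv_drop (c : ℕ) (y : ℝ) (D N : Finset Str) :
    vv V c y ≤ vv V c (y - (∑ p ∈ D, w p + ∑ p ∈ N, w p)) + ∑ p ∈ N, w p +
      (D.card : ℝ) * (1 / 2 : ℝ) ^ c := by
  have hN : 0 ≤ ∑ p ∈ N, w p := Finset.sum_nonneg fun _ _ => w_nonneg _
  have h1 := vv_lip hV c (y - ∑ p ∈ N, w p) y (by linarith)
  have h2 : vv V c (y - ∑ p ∈ N, w p) ≤ vv V c (y - (∑ p ∈ D, w p + ∑ p ∈ N, w p)) +
      (D.card : ℝ) * (1 / 2 : ℝ) ^ c := by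
    rcases D.eq_empty_or_nonempty with rfl | hD
    · simp
    · have h3 := vv_le hV c (y - ∑ p ∈ N, w p)
      have h4 := vv_nonneg hV c (y - (∑ p ∈ D, w p + ∑ p ∈ N, w p))
      have h5 : (1 : ℝ) ≤ (D.card : ℝ) := by exact_mod_cast hD.card_pos
      have h6 : (0 : ℝ) < (1 / 2 : ℝ) ^ c := by positivity
      nlinarith
  linarith

end vdrop

end Pool.Agent.W305.RH
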