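import Mathlib
import Pool.Agent.W305.RH.Core

set_option autoImplicit false

/-!
# The nested runs: the main inequality
-/

namespace Pool.Agent.W305.RH

open Pool.Agent.H561R3.Om Classical

/-- the errors of the runs that start after `a` and before `b` -/
noncomputable def g (a b : ℕ) : ℝ :=
  if a < b then 1 / 4 * ((1 / 2 : ℝ) ^ a - 2 * (1 / 2 : ℝ) ^ b) else 0

theorem g_succ {a s : ℕ} (h : a ≤ s) :
    g a (s + 1) = 1 / 4 * ((1 / 2 : ℝ) ^ a - (1 / 2 : ℝ) ^ s) := by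
  unfold g
  rw [if_pos (by omega), pow_succ]
  ring

theorem half_anti {a b : ℕ} (h : a ≤ b) : (1 / 2 : ℝ) ^ b ≤ (1 / 2 : ℝ) ^ a :=
  pow_le_pow_of_le_one (by norm_num) (by norm_num) h

section

variable (R : Run) (Q : Mass) (V : ℕ → Set IC)

def K (s j : ℕ) : Prop :=
  (R.X s j - R.e (R.S s (j + 1))) + (j : ℝ) * (R.e (R.S s j) - R.e (R.S s (j + 1))) ≤
    Q.W (R.S s (j + 1)) (R.S s j) s +
    vv V (2 * R.S s (j + 1) + 3) (R.X s j + Q.B (R.S s j) s) +
    (Q.m (R.S s (j + 1)) s : ℝ) * (1 / 2 : ℝ) ^ (2 * R.S s (j + 1) + 3) +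
    g (R.S s (j + 1)) (R.S s j)

def C (s l : ℕ) : Prop :=
  (l : ℝ) * (R.e s - R.e (R.S s l)) - 1 / 4 * (2 * (1 / 2 : ℝ) ^ (R.S s l) - (1 / 2 : ℝ) ^ s) ≤
    Q.F (R.S s l) s

variable {R Q V} (hV : ∀ n, MeasureTheory.volume (openOf (V n)) ≤
  ENNReal.ofReal ((1 / 2 : ℝ) ^ n))

theorem err_nonneg {a s : ℕ} (h : a ≤ s) :
    0 ≤ 1 / 4 * (2 * (1 / 2 : ℝ) ^ a - (1 / 2 : ℝ) ^ s) := by
  have h1 := half_anti h
  have h2 : (0 : ℝ) < (1 / 2 : ℝ) ^ a := by positivity
  linarith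

theorem C_triv {s l : ℕ} (hl : l ≤ R.T) (h : R.e s = R.e (R.S s l)) : C R Q s l := by
  unfold C
  rw [← h, sub_self, mul_zero]
  have h1 := err_nonneg (R.S_le s l hl)
  have h2 := Q.F_nonneg (R.S s l) s
  linarith

include hV

theorem small (s l : ℕ) (y : ℝ) : vv V (2 * R.S s l + 3) y +
    (Q.m (R.S s l) s : ℝ) * (1 / 2 : ℝ) ^ (2 * R.S s l + 3) ≤ 1 / 4 * (1 / 2 : ℝ) ^ (R.S s l) := by
  have h1 := vv_le hV (2 * R.S s l + 3) y
  have h2 := Q.m_le (R.S s l) s
  set a := R.S s l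
  have h3 : (1 / 2 : ℝ) ^ (2 * a + 3) = (1 / 8) * ((1 / 2 : ℝ) ^ a * (1 / 2 : ℝ) ^ a) := by
    rw [pow_add, two_mul, pow_add]; ring
  have h4 : (0 : ℝ) < (1 / 2 : ℝ) ^ a := by positivity
  have h5 : (2 : ℝ) ^ a * (1 / 2 : ℝ) ^ a = 1 := by rw [← mul_pow]; norm_num
  have h6 : (1 / 2 : ℝ) ^ a ≤ 1 := pow_le_one₀ (by norm_num) (by norm_num)
  have h7 : (Q.m a s : ℝ) * (1 / 2 : ℝ) ^ (2 * a + 3) ≤ 1 / 8 * (1 / 2 : ℝ) ^ a := by
    rw [h3]
    calc (Q.m a s : ℝ) * (1 / 8 * ((1 / 2 : ℝ) ^ a * (1 / 2 : ℝ) ^ a))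
        ≤ 2 ^ a * (1 / 8 * ((1 / 2 : ℝ) ^ a * (1 / 2 : ℝ) ^ a)) := by
          refine mul_le_mul_of_nonneg_right h2 (by positivity)
      _ = 1 / 8 * ((2 ^ a * (1 / 2 : ℝ) ^ a) * (1 / 2 : ℝ) ^ a) := by ring
      _ = 1 / 8 * (1 / 2 : ℝ) ^ a := by rw [h5, one_mul]
  have h8 : (1 / 2 : ℝ) ^ (2 * a + 3) ≤ 1 / 8 * (1 / 2 : ℝ) ^ a := by
    rw [h3]
    nlinarith
  linarith

theorem C_of_K (s : ℕ) (hK : ∀ j < R.T, K R Q V s j) :
    ∀ l, l ≤ R.lam s → l ≤ R.T → C R Q s l := by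
  intro l
  induction l with
  | zero =>
    intro _ h2
    unfold C
    have h1 := err_nonneg (R.S_le s 0 h2)
    have h3 := Q.F_nonneg (R.S s 0) s
    push_cast
    linarith
  | succ j ih =>
    intro h1 h2
    rcases Nat.lt_or_ge (R.S s (j + 1)) (R.S s j) with h | h
    · have h3 := ih (by omega) (by omega)
      have h4 := hK j (by omega)
      unfold C at h3 ⊢
      unfold K at h4
      rw [R.X_lt (by omega : j < R.lam s)] at h4
      have h5 := small (R := R) (Q := Q) hV s (j + 1) (R.e s + Q.B (R.S s j) s)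
      have h6 := Q.F_split (s := s) h.le
      have h7 : g (R.S s (j + 1)) (R.S s j) =
          1 / 4 * ((1 / 2 : ℝ) ^ (R.S s (j + 1)) - 2 * (1 / 2 : ℝ) ^ (R.S s j)) := by
        unfold g; rw [if_pos h]
      rw [h7] at h4
      push_cast
      nlinarith
    · have h3 := R.S_anti s j (j + 1) (by omega) h2
      have h4 := R.same s (j + 1) (by omega) h2 (by simpa using le_antisymm h h3)
      exact C_triv h2 h4.2

/-- the transition when the runs of levels `j` and `j + 1` go on -/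
theorem K_keep {s j : ℕ} (hK : K R Q V s j) (h1 : R.S (s + 1) j = R.S s j)
    (h2 : R.S (s + 1) (j + 1) = R.S s (j + 1)) (h3 : R.X (s + 1) j = R.X s j) :
    K R Q V (s + 1) j := by
  unfold K at hK ⊢
  rw [h1, h2, h3]
  set a := R.S s (j + 1)
  set b := R.S s j
  have e1 := Q.B_step a b s
  have e2 := Q.W_step a b s
  have e3 : (Q.m a s : ℝ) + ((Q.dO a b s).card : ℝ) ≤ (Q.m a (s + 1) : ℝ) := by
    exact_mod_cast Q.m_step a b s
  have e4 := vv_drop hV (2 * a + 3) (R.X s j + Q.B b s) (Q.dO a b s) (Q.dN a b s)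
  have e5 : R.X s j + Q.B b s - (∑ p ∈ Q.dO a b s, w p + ∑ p ∈ Q.dN a b s, w p) =
      R.X s j + Q.B b (s + 1) := by linarith
  rw [e5] at e4
  have e6 : (0 : ℝ) < (1 / 2 : ℝ) ^ (2 * a + 3) := by positivity
  have e7 : (Q.m a s : ℝ) * (1 / 2 : ℝ) ^ (2 * a + 3) + ((Q.dO a b s).card : ℝ) *
      (1 / 2 : ℝ) ^ (2 * a + 3) ≤ (Q.m a (s + 1) : ℝ) * (1 / 2 : ℝ) ^ (2 * a + 3) := by
    rw [← add_mul]
    exact mul_le_mul_of_nonneg_right e3 e6.le
  linarith

theorem K_all (hact : ∀ s, R.am s ≠ 0 → ∃ t ∈ V (2 * R.S s (R.lam s) + 3),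
      ratOf t.1 < R.e s + Q.B s s ∧ R.e s + Q.B s s + R.r s ≤ ratOf t.2) (s : ℕ) :
    ∀ j < R.T, K R Q V s j := by
  induction s with
  | zero =>
    intro j hj
    unfold K
    rw [R.S0 (j + 1) (by omega), R.S0 j (by omega), sub_self, mul_zero, R.e_zero]
    have h1 : R.X 0 j = 0 := by
      rw [R.X_lt (by rw [R.lam_zero]; exact hj), R.e_zero]
    rw [h1]
    have h2 := Q.W_nonneg 0 0 0
    have h3 := vv_nonneg hV (2 * 0 + 3) (0 + Q.B 0 0)
    have h4 : g 0 0 = 0 := by unfold g; simp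
    rw [h4]
    have h5 : 0 ≤ (Q.m 0 0 : ℝ) * (1 / 2 : ℝ) ^ (2 * 0 + 3) := by positivity
    linarith
  | succ s ih =>
    intro j hj
    by_cases ha : R.am s = 0
    · exact K_keep hV (ih j hj) (R.Ss_wait ha (by omega)) (R.Ss_wait ha (by omega))
        (R.X_wait ha (by omega))
    have hT := R.aT s ha
    rcases lt_trichotomy (j + 1) (R.lam s) with hl | hl | hl
    · -- the levels below
      unfold K
      rw [R.Ss_lt ha (by omega : j < R.lam s), R.Ss_lt ha hl, sub_self, mul_zero]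
      have h1 : R.X (s + 1) j = R.e (s + 1) := by
        refine R.X_lt ?_
        rw [R.lam_act ha (by omega)]
        omega
      rw [h1]
      have h2 := Q.W_nonneg (s + 1) (s + 1) (s + 1)
      have h3 := vv_nonneg hV (2 * (s + 1) + 3) (R.e (s + 1) + Q.B (s + 1) (s + 1))
      have h4 : g (s + 1) (s + 1) = 0 := by unfold g; simp
      rw [h4]
      have h5 : 0 ≤ (Q.m (s + 1) (s + 1) : ℝ) * (1 / 2 : ℝ) ^ (2 * (s + 1) + 3) := by positivity
      linarith
    · -- the level that moves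
      have hK := ih j hj
      have hCj := C_of_K hV s ih j (by omega) (by omega)
      unfold K at hK ⊢
      unfold C at hCj
      rw [R.Ss_lt ha (by omega : j < R.lam s), R.Ss_ge (by omega) (by omega : R.lam s ≤ j + 1),
        R.X_act ha hl]
      rw [R.X_lt (by omega : j < R.lam s)] at hK
      have hale := R.S_le s (j + 1) (by omega)
      have hab := R.S_anti s j (j + 1) (by omega) (by omega)
      have hbs := R.S_le s j (by omega)
      obtain ⟨t, ht, t1, t2⟩ := hact s ha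
      rw [← hl] at ht
      set a := R.S s (j + 1)
      set b := R.S s j
      have e1 := Q.B_step a s s
      have e2 := Q.W_step a s s
      rw [Q.W_self hale, Q.F_split (s := s) hab] at e2
      have e2' : Q.W a s (s + 1) ≤ Q.W a (s + 1) (s + 1) := by
        rw [Q.W_self (by omega)]
        have := Q.F_split (s := s + 1) hale
        have := Q.F_nonneg s (s + 1)
        linarith
      have e3 : (Q.m a s : ℝ) + ((Q.dO a s s).card : ℝ) ≤ (Q.m a (s + 1) : ℝ) := by
        exact_mod_cast Q.m_step a s s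
      have e4 := vv_drop hV (2 * a + 3) (R.e s + Q.B s s + R.r s) (Q.dO a s s) (Q.dN a s s)
      have e5 : R.e s + Q.B s s + R.r s - (∑ p ∈ Q.dO a s s, w p + ∑ p ∈ Q.dN a s s, w p) =
          R.e s + R.r s + Q.B s (s + 1) := by linarith
      rw [e5] at e4
      have e6 : (0 : ℝ) < (1 / 2 : ℝ) ^ (2 * a + 3) := by positivity
      have e7 : (Q.m a s : ℝ) * (1 / 2 : ℝ) ^ (2 * a + 3) + ((Q.dO a s s).card : ℝ) *
          (1 / 2 : ℝ) ^ (2 * a + 3) ≤ (Q.m a (s + 1) : ℝ) * (1 / 2 : ℝ) ^ (2 * a + 3) := by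
        rw [← add_mul]
        exact mul_le_mul_of_nonneg_right e3 e6.le
      have e8 : vv V (2 * a + 3) (R.e s + R.r s + Q.B s (s + 1)) ≤
          vv V (2 * a + 3) (R.e s + R.r s + Q.B (s + 1) (s + 1)) := by
        refine vv_mono hV _ ?_
        have := Q.B_mono (s := s + 1) (Nat.le_succ s)
        linarith
      have e9 := vv_grow hV (2 * a + 3) (R.e s + Q.B s s) (R.r s) (R.r_nonneg s) ht t1 t2
      have e10 : vv V (2 * a + 3) (R.e s + Q.B b s) ≤ vv V (2 * a + 3) (R.e s + Q.B s s) := by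
        refine vv_mono hV _ ?_
        have := Q.B_mono (s := s) hbs
        linarith
      have e11 : (j : ℝ) * R.e (s + 1) = (j : ℝ) * R.e s := by
        by_cases h0 : j = 0
        · subst h0; simp
        · rw [R.e_ne (Or.inr (by omega))]
      have e12 : (j : ℝ) * (R.e s - R.e b) + g a b ≤ Q.F b s + g a (s + 1) := by
        rcases Nat.lt_or_ge a b with h | h
        · have h7 : g a b = 1 / 4 * ((1 / 2 : ℝ) ^ a - 2 * (1 / 2 : ℝ) ^ b) := by
            unfold g; rw [if_pos h]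
          rw [h7, g_succ hale]
          linarith
        · have h3 : b = a := le_antisymm h hab
          have h4 := R.same s (j + 1) (by omega) (by omega) (by simpa using h3)
          have h5 : R.e s = R.e a := h4.2
          have h7 : g a b = 0 := by unfold g; rw [if_neg (by omega)]
          rw [h3, ← h5, sub_self, mul_zero, show g a a = 0 by unfold g; simp, g_succ hale]
          have h8 := half_anti hale
          have h9 := Q.F_nonneg a s
          linarith
      have e13 : (j : ℝ) * (R.e (s + 1) - R.e a) = (j : ℝ) * R.e s - (j : ℝ) * R.e a := by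
        rw [mul_sub, e11]
      rw [e13]
      linarith
    · -- the levels above
      refine K_keep hV (ih j hj) (R.Ss_ge (by omega) (by omega)) (R.Ss_ge (by omega) (by omega))
        (R.X_above ha (by omega) (by omega))

/-- the strategy never reaches the end -/
theorem never (hact : ∀ s, R.am s ≠ 0 → ∃ t ∈ V (2 * R.S s (R.lam s) + 3),
      ratOf t.1 < R.e s + Q.B s s ∧ R.e s + Q.B s s + R.r s ≤ ratOf t.2) (s : ℕ) :
    R.lam s ≤ R.T := by
  by_contra h
  have h0 := R.lle s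
  have h1 := C_of_K hV s (K_all hV hact s) R.T (by omega) le_rfl
  unfold C at h1
  have h2 := Q.F_le (R.S s R.T) s
  rw [R.S_top] at h1 h2
  rw [R.e_zero, sub_zero] at h1
  have h3 : R.T * R.e s ≥ 2 := by
    have h4 : (2 ^ s : ℕ) ≤ R.E s 0 := by rw [← R.E_top s]; exact R.lnot s R.T (by omega)
    have h5 : ((2 ^ s : ℕ) : ℝ) ≤ (R.E s 0 : ℝ) := by exact_mod_cast h4
    have h6 : (R.T : ℝ) = 2 * 2 ^ R.n0 := by rw [R.hT]; push_cast; ring
    have h7 : ((1 : ℝ) / 2 ^ R.n0) ≤ R.e s := by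
      unfold Run.e
      rw [pow_add, div_le_div_iff₀ (by positivity) (by positivity)]
      push_cast at h5
      have : (0 : ℝ) < 2 ^ R.n0 := by positivity
      nlinarith
    rw [h6]
    have h8 : (0 : ℝ) < 2 ^ R.n0 := by positivity
    rw [div_le_iff₀ h8] at h7
    nlinarith
  have h9 : (0 : ℝ) < (1 / 2 : ℝ) ^ s := by positivity
  norm_num at h1
  linarith

end

end Pool.Agent.W305.RH
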