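import Mathlib
import Pool.Agent.H561R3.Om.Strat

set_option autoImplicit false

/-!
# The nested strategy

A variant of the strategy of `Pool.Agent.H561R3.Om.Strat` (the index of the open set that a run
of a level uses is `2 S + 3`, where `S` is the stage at which the run starts).
-/

namespace Pool.Agent.W305.RH

open Encodable Pool.Agent.Helper227 Pool.Agent.H561R3 Pool.Agent.H561R3.Om

open Classical

variable (qU : Str × Str → ℕ → Prop) (qW : Str → ℕ → Prop) (qV : ℕ × IC → ℕ → Prop)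

/-- the amount -/
noncomputable def amt (κ : Str) (s : ℕ) (L : List (ℕ × ℕ)) : ℕ :=
  Nat.findGreatest (fun r => Act qU qW qV κ s (gE L 0) (2 * gS L (lev L) + 3) r)
    (gE L (lev L) - gE L 0)

noncomputable def stepL (κ : Str) (s : ℕ) (L : List (ℕ × ℕ)) : List (ℕ × ℕ) :=
  (List.range L.length).map (fun l =>
    if amt qU qW qV κ s L = 0 then (2 * gE L l, gS L l)
    else (if l + 1 = lev L then 2 * (gE L 0 + amt qU qW qV κ s L) else 2 * gE L l,
      if l < lev L then s + 1 else gS L l))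

/-- the state at stage `s` -/
noncomputable def ST (κ : Str) (s : ℕ) : List (ℕ × ℕ) :=
  Nat.rec (ini κ) (fun s L => stepL qU qW qV κ s L) s

variable {qU : Str × Str → ℕ → Prop} {qW : Str → ℕ → Prop} {qV : ℕ × IC → ℕ → Prop}

variable {α : Type} [Primcodable α]

theorem pr_amt (hU : PrimrecRel qU) (hW : PrimrecRel qW) (hV : PrimrecRel qV)
    {κ : α → Str} {s : α → ℕ} {L : α → List (ℕ × ℕ)}
    (hκ : Primrec κ) (hs : Primrec s) (hL : Primrec L) :
    Primrec fun a => amt qU qW qV (κ a) (s a) (L a) := by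
  unfold amt
  have hlev := pr_lev hL
  refine Primrec.nat_findGreatest (p := fun a r => Act qU qW qV (κ a) (s a) (gE (L a) 0)
    (2 * gS (L a) (lev (L a)) + 3) r) ?_ ?_
  · exact Primrec.nat_sub.comp (pr_gE hL hlev) (pr_gE hL (Primrec.const 0))
  · refine pr_Act (α := α × ℕ) hU hW hV (hκ.comp Primrec.fst) (hs.comp Primrec.fst)
      ((pr_gE hL (Primrec.const 0)).comp Primrec.fst) ?_ Primrec.snd
    exact (Primrec.nat_add.comp (Primrec.nat_mul.comp (Primrec.const 2) (pr_gS hL hlev))
      (Primrec.const 3)).comp Primrec.fst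

theorem pr_stepL (hU : PrimrecRel qU) (hW : PrimrecRel qW) (hV : PrimrecRel qV)
    {κ : α → Str} {s : α → ℕ} {L : α → List (ℕ × ℕ)}
    (hκ : Primrec κ) (hs : Primrec s) (hL : Primrec L) :
    Primrec fun a => stepL qU qW qV (κ a) (s a) (L a) := by
  unfold stepL
  have hA := pr_amt hU hW hV hκ hs hL
  have hlev := pr_lev hL
  have hA' := hA.comp (Primrec.fst (α := α) (β := ℕ))
  have hlev' := hlev.comp (Primrec.fst (α := α) (β := ℕ))
  have hL' := hL.comp (Primrec.fst (α := α) (β := ℕ))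
  have hs' := hs.comp (Primrec.fst (α := α) (β := ℕ))
  refine Primrec.list_map (Primrec.list_range.comp (Primrec.list_length.comp hL)) ?_
  refine Primrec.ite ?_ ?_ ?_
  · exact Primrec.eq.comp hA' (Primrec.const 0)
  · exact Primrec.pair (Primrec.nat_mul.comp (Primrec.const 2) (pr_gE hL' Primrec.snd))
      (pr_gS hL' Primrec.snd)
  · refine Primrec.pair (Primrec.ite ?_ ?_ ?_) (Primrec.ite ?_ (Primrec.succ.comp hs')
      (pr_gS hL' Primrec.snd))
    · exact Primrec.eq.comp (Primrec.succ.comp Primrec.snd) hlev'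
    · exact Primrec.nat_mul.comp (Primrec.const 2) (Primrec.nat_add.comp
        (pr_gE hL' (Primrec.const 0)) hA')
    · exact Primrec.nat_mul.comp (Primrec.const 2) (pr_gE hL' Primrec.snd)
    · exact Primrec.nat_lt.comp Primrec.snd hlev'

theorem pr_ST (hU : PrimrecRel qU) (hW : PrimrecRel qW) (hV : PrimrecRel qV) :
    Primrec₂ (ST qU qW qV) := by
  unfold ST
  refine Primrec.nat_rec (f := ini) (g := fun κ (x : ℕ × List (ℕ × ℕ)) =>
    stepL qU qW qV κ x.1 x.2) pr_ini ?_
  exact pr_stepL hU hW hV Primrec.fst (Primrec.fst.comp Primrec.snd)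
    (Primrec.snd.comp Primrec.snd)

/-! ### The equations of the strategy -/

section eqs

variable (qU qW qV) (κ : Str)

noncomputable def Ef (s l : ℕ) : ℕ := gE (ST qU qW qV κ s) l
noncomputable def Sf (s l : ℕ) : ℕ := gS (ST qU qW qV κ s) l
noncomputable def lam (s : ℕ) : ℕ := lev (ST qU qW qV κ s)
noncomputable def am (s : ℕ) : ℕ := amt qU qW qV κ s (ST qU qW qV κ s)

theorem ST_succ (s : ℕ) : ST qU qW qV κ (s + 1) = stepL qU qW qV κ s (ST qU qW qV κ s) := rfl

theorem length_ST (s : ℕ) : (ST qU qW qV κ s).length = TT κ + 1 := by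
  induction s with
  | zero => simp [ST, ini]
  | succ s ih => rw [ST_succ]; simp [stepL, ih]

theorem E_zero (l : ℕ) (hl : l ≤ TT κ) : Ef qU qW qV κ 0 l = if l = TT κ then 1 else 0 := by
  have h : l < ((List.range (TT κ + 1)).map
    (fun l => (if l = TT κ then 1 else 0, 0) : ℕ → ℕ × ℕ)).length := by simp; omega
  unfold Ef gE
  show ((ini κ).getD l (0, 0)).1 = _
  unfold ini
  rw [List.getD_eq_getElem _ _ h]
  simp

theorem S_zero (l : ℕ) (hl : l ≤ TT κ) : Sf qU qW qV κ 0 l = 0 := by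
  have h : l < ((List.range (TT κ + 1)).map
    (fun l => (if l = TT κ then 1 else 0, 0) : ℕ → ℕ × ℕ)).length := by simp; omega
  unfold Sf gS
  show ((ini κ).getD l (0, 0)).2 = _
  unfold ini
  rw [List.getD_eq_getElem _ _ h]
  simp

theorem E_succ (s l : ℕ) (hl : l ≤ TT κ) : Ef qU qW qV κ (s + 1) l =
    if am qU qW qV κ s = 0 then 2 * Ef qU qW qV κ s l else
      if l + 1 = lam qU qW qV κ s then 2 * (Ef qU qW qV κ s 0 + am qU qW qV κ s)
      else 2 * Ef qU qW qV κ s l := by
  have h0 := length_ST qU qW qV κ s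
  have h : l < (ST qU qW qV κ (s + 1)).length := by rw [length_ST]; omega
  unfold Ef
  rw [show gE (ST qU qW qV κ (s + 1)) l = ((ST qU qW qV κ (s + 1))[l]'h).1 by
    unfold gE; rw [List.getD_eq_getElem _ _ h]]
  simp only [ST_succ, stepL, List.getElem_map, List.getElem_range]
  unfold am lam
  split_ifs <;> rfl

theorem S_succ (s l : ℕ) (hl : l ≤ TT κ) : Sf qU qW qV κ (s + 1) l =
    if am qU qW qV κ s = 0 then Sf qU qW qV κ s l else
      if l < lam qU qW qV κ s then s + 1 else Sf qU qW qV κ s l := by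
  have h0 := length_ST qU qW qV κ s
  have h : l < (ST qU qW qV κ (s + 1)).length := by rw [length_ST]; omega
  unfold Sf
  rw [show gS (ST qU qW qV κ (s + 1)) l = ((ST qU qW qV κ (s + 1))[l]'h).2 by
    unfold gS; rw [List.getD_eq_getElem _ _ h]]
  simp only [ST_succ, stepL, List.getElem_map, List.getElem_range]
  unfold am lam
  split_ifs <;> rfl

theorem lam_le (s : ℕ) : lam qU qW qV κ s ≤ TT κ + 1 := by
  unfold lam lev
  refine (List.findIdx_le_length).trans ?_
  rw [length_ST]

theorem lam_not (s j : ℕ) (hj : j < lam qU qW qV κ s) : Ef qU qW qV κ s j ≤ Ef qU qW qV κ s 0 := by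
  have h1 : j < (ST qU qW qV κ s).length := by
    have := lam_le qU qW qV κ s
    rw [length_ST]; omega
  have h2 := List.not_of_lt_findIdx (p := fun x : ℕ × ℕ => decide (gE (ST qU qW qV κ s) 0 < x.1))
    (xs := ST qU qW qV κ s) (i := j) hj
  have h3 : gE (ST qU qW qV κ s) j = ((ST qU qW qV κ s)[j]'h1).1 := by
    unfold gE; rw [List.getD_eq_getElem _ _ h1]
  unfold Ef
  rw [h3]
  simpa using h2

theorem lam_spec (s : ℕ) (hs : lam qU qW qV κ s ≤ TT κ) :
    Ef qU qW qV κ s 0 < Ef qU qW qV κ s (lam qU qW qV κ s) := by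
  have h1 : lam qU qW qV κ s < (ST qU qW qV κ s).length := by rw [length_ST]; omega
  have h3 : gE (ST qU qW qV κ s) (lam qU qW qV κ s) =
      ((ST qU qW qV κ s)[lam qU qW qV κ s]'h1).1 := by
    unfold gE; rw [List.getD_eq_getElem _ _ h1]
  unfold Ef
  rw [h3]
  unfold lam lev at h1 ⊢
  have h2 := List.findIdx_getElem (w := h1)
  exact of_decide_eq_true h2

theorem lam_pos (s : ℕ) : 1 ≤ lam qU qW qV κ s := by
  by_contra h
  have h0 : lam qU qW qV κ s = 0 := by omega
  have := lam_spec qU qW qV κ s (by omega)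
  rw [h0] at this
  exact lt_irrefl _ this

theorem am_le (s : ℕ) : am qU qW qV κ s ≤
    Ef qU qW qV κ s (lam qU qW qV κ s) - Ef qU qW qV κ s 0 := by
  unfold am amt
  exact Nat.findGreatest_le _

theorem am_act (s : ℕ) (h : am qU qW qV κ s ≠ 0) :
    Act qU qW qV κ s (Ef qU qW qV κ s 0) (2 * Sf qU qW qV κ s (lam qU qW qV κ s) + 3)
      (am qU qW qV κ s) := by
  unfold am amt at h ⊢
  exact Nat.findGreatest_of_ne_zero rfl h

theorem am_max (s r : ℕ) (hr : r ≤ Ef qU qW qV κ s (lam qU qW qV κ s) - Ef qU qW qV κ s 0)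
    (h : Act qU qW qV κ s (Ef qU qW qV κ s 0) (2 * Sf qU qW qV κ s (lam qU qW qV κ s) + 3) r) :
    r ≤ am qU qW qV κ s := by
  unfold am amt
  exact Nat.le_findGreatest hr h

end eqs

end Pool.Agent.W305.RH
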