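import Mathlib
import Pool.Agent.H561R3.Om.Defs
import Pool.Agent.W305.RH.Strat

set_option autoImplicit false

/-!
# The machine that follows the strategy
-/

namespace Pool.Agent.W305.RH

open Encodable Pool.Agent.Helper227 Pool.Agent.H561R3 Pool.Agent.H561R3.Om

open Classical

/-! ### The binary value of a string -/

def val (q : Str) : ℕ := q.foldl (fun n b => 2 * n + cond b 1 0) 0

theorem val_append (q : Str) (b : Bool) : val (q ++ [b]) = 2 * val q + cond b 1 0 := by
  unfold val
  rw [List.foldl_append]
  rfl

theorem val_append_bounds (q r : Str) : val q * 2 ^ r.length ≤ val (q ++ r) ∧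
    val (q ++ r) < (val q + 1) * 2 ^ r.length := by
  induction r using List.reverseRecOn with
  | nil => simp
  | append_singleton r b ih =>
    rw [← List.append_assoc, val_append, List.length_append, List.length_singleton, pow_succ]
    constructor
    · have := ih.1
      have h : val q * (2 ^ r.length * 2) = 2 * (val q * 2 ^ r.length) := by ring
      omega
    · have := ih.2
      have h : (val q + 1) * (2 ^ r.length * 2) = 2 * ((val q + 1) * 2 ^ r.length) := by ring
      cases b <;> simp only [cond] <;> omega

theorem val_inj : ∀ (n : ℕ) (q r : Str), q.length = n → r.length = n → val q = val r → q = r := by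
  intro n
  induction n with
  | zero =>
    intro q r h1 h2 _
    rw [List.length_eq_zero_iff] at h1 h2
    rw [h1, h2]
  | succ n ih =>
    intro q r h1 h2 h3
    obtain ⟨q', b, rfl⟩ : ∃ q' b, q = q' ++ [b] := by
      rcases List.eq_nil_or_concat q with h | ⟨q', b, h⟩
      · rw [h] at h1; simp at h1
      · exact ⟨q', b, by simpa using h⟩
    obtain ⟨r', c, rfl⟩ : ∃ r' c, r = r' ++ [c] := by
      rcases List.eq_nil_or_concat r with h | ⟨r', c, h⟩
      · rw [h] at h2; simp at h2
      · exact ⟨r', c, by simpa using h⟩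
    rw [val_append, val_append] at h3
    rw [List.length_append, List.length_singleton] at h1 h2
    have h4 : b = c := by cases b <;> cases c <;> simp only [cond] at h3 <;> first | rfl | omega
    subst h4
    rw [ih q' r' (by omega) (by omega) (by omega)]

theorem val_surj : ∀ (n m : ℕ), m < 2 ^ n → ∃ q : Str, q.length = n ∧ val q = m := by
  intro n
  induction n with
  | zero => intro m hm; exact ⟨[], rfl, by simp at hm; subst hm; rfl⟩
  | succ n ih =>
    intro m hm
    rw [pow_succ] at hm
    obtain ⟨q, h1, h2⟩ := ih (m / 2) (by omega)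
    refine ⟨q ++ [decide (m % 2 = 1)], by simp [h1], ?_⟩
    rw [val_append, h2]
    by_cases h : m % 2 = 1
    · simp only [h, decide_true, cond]; omega
    · simp only [h, decide_false, cond]; omega

theorem pr_val : Primrec val := by
  unfold val
  refine Primrec.list_foldl (f := fun q : Str => q) (g := fun _ => 0)
    (h := fun _ (x : ℕ × Bool) => 2 * x.1 + cond x.2 1 0) Primrec.id (Primrec.const 0) ?_
  refine Primrec.nat_add.comp (Primrec.nat_mul.comp (Primrec.const 2)
    (Primrec.fst.comp Primrec.snd)) ?_
  exact Primrec.cond (Primrec.snd.comp Primrec.snd) (Primrec.const 1) (Primrec.const 0)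

/-! ### The codes -/

def tau (k : ℕ) : Str := List.replicate k false ++ [true]

def kOf (p : Str) : ℕ := p.findIdx (fun b => b)

theorem kOf_tau (k : ℕ) (q : Str) : kOf (tau k ++ q) = k := by
  unfold kOf tau
  induction k with
  | zero => simp [List.findIdx_cons]
  | succ k ih =>
    rw [List.replicate_succ, List.cons_append, List.cons_append, List.findIdx_cons, ih]
    rfl

theorem length_tau (k : ℕ) : (tau k).length = k + 1 := by simp [tau]

theorem drop_tau (k : ℕ) (q : Str) : (tau k ++ q).drop (k + 1) = q := by
  rw [← length_tau k, List.drop_left]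

theorem eq_tau {p : Str} (h : kOf p < p.length) : p = tau (kOf p) ++ p.drop (kOf p + 1) := by
  induction p with
  | nil => simp at h
  | cons b p ih =>
    cases b with
    | true =>
      have : kOf (true :: p) = 0 := by unfold kOf; rw [List.findIdx_cons]; rfl
      rw [this]
      simp [tau]
    | false =>
      have h1 : kOf (false :: p) = kOf p + 1 := by unfold kOf; rw [List.findIdx_cons]; rfl
      rw [h1] at h ⊢
      have h2 := ih (by simpa using h)
      conv_lhs => rw [h2]
      simp [tau, List.replicate_succ]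

theorem kOf_prefix {p q : Str} (h : p <+: q) (hk : kOf p < p.length) : kOf q = kOf p := by
  obtain ⟨r, rfl⟩ := h
  conv_lhs => rw [eq_tau hk, List.append_assoc]
  rw [kOf_tau]

theorem pr_kOf : Primrec kOf := by
  unfold kOf
  exact Primrec.list_findIdx Primrec.id Primrec.snd

theorem pr_tau : Primrec tau := by
  unfold tau
  refine Primrec.list_append.comp ?_ (Primrec.const [true])
  have : Primrec fun k : ℕ => (List.range k).map (fun _ => false) :=
    Primrec.list_map Primrec.list_range (Primrec.const false)
  refine this.of_eq fun k => ?_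
  rw [List.map_const', List.length_range]

/-! ### The domain -/

section dom

variable (qU : Str × Str → ℕ → Prop) (qW : Str → ℕ → Prop) (qV : ℕ × IC → ℕ → Prop)

def inD (κ q : Str) : Prop := Ef qU qW qV κ q.length 0 ≤ val q ∧
  2 * (val q + 1) ≤ Ef qU qW qV κ (q.length + 1) 0

theorem E_double (κ : Str) (s : ℕ) : 2 * Ef qU qW qV κ s 0 ≤ Ef qU qW qV κ (s + 1) 0 := by
  rw [E_succ _ _ _ _ _ _ (Nat.zero_le _)]
  split_ifs <;> omega

theorem E_pow (κ : Str) (s t : ℕ) : 2 ^ t * Ef qU qW qV κ s 0 ≤ Ef qU qW qV κ (s + t) 0 := by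
  induction t with
  | zero => simp
  | succ t ih =>
    have := E_double qU qW qV κ (s + t)
    have h : 2 ^ (t + 1) * Ef qU qW qV κ s 0 = 2 * (2 ^ t * Ef qU qW qV κ s 0) := by
      rw [pow_succ]; ring
    rw [h, ← Nat.add_assoc]
    omega

theorem inD_pf (κ q r : Str) (hq : inD qU qW qV κ q) (hr : inD qU qW qV κ r) (h : q <+: r) :
    q = r := by
  obtain ⟨u, rfl⟩ := h
  by_contra hne
  have hu : u ≠ [] := by
    rintro rfl; simp at hne
  have hl : 0 < u.length := List.length_pos_iff.2 hu
  obtain ⟨m, hm⟩ : ∃ m, u.length = m + 1 := ⟨u.length - 1, by omega⟩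
  have h1 := (val_append_bounds q u).2
  have h2 := hr.1
  have h3 := hq.2
  have h4 := E_pow qU qW qV κ (q.length + 1) m
  rw [List.length_append, hm, show q.length + (m + 1) = q.length + 1 + m by ring] at h2
  rw [hm] at h1
  have h5 : 2 ^ m * (2 * (val q + 1)) ≤ 2 ^ m * Ef qU qW qV κ (q.length + 1) 0 :=
    Nat.mul_le_mul_left _ h3
  have h6 : 2 ^ m * (2 * (val q + 1)) = (val q + 1) * 2 ^ (m + 1) := by rw [pow_succ]; ring
  omega

noncomputable def dB (κ q : Str) : Bool := decide (inD qU qW qV κ q)

variable {qU qW qV}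

theorem pr_dB (hU : PrimrecRel qU) (hW : PrimrecRel qW) (hV : PrimrecRel qV) :
    Primrec₂ (dB qU qW qV) := by
  have hE : Primrec₂ fun (κ : Str) (s : ℕ) => Ef qU qW qV κ s 0 := by
    unfold Ef
    exact pr_gE (pr_ST hU hW hV) (Primrec.const 0)
  have h1 : Primrec fun x : Str × Str => Ef qU qW qV x.1 x.2.length 0 :=
    hE.comp Primrec.fst (Primrec.list_length.comp Primrec.snd)
  have h2 : Primrec fun x : Str × Str => Ef qU qW qV x.1 (x.2.length + 1) 0 :=
    hE.comp Primrec.fst (Primrec.succ.comp (Primrec.list_length.comp Primrec.snd))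
  have h3 : Primrec fun x : Str × Str => val x.2 := pr_val.comp Primrec.snd
  have h4 : PrimrecPred fun x : Str × Str => inD qU qW qV x.1 x.2 := by
    unfold inD
    exact PrimrecPred.and (Primrec.nat_le.comp h1 h3)
      (Primrec.nat_le.comp (Primrec.nat_mul.comp (Primrec.const 2) (Primrec.succ.comp h3)) h2)
  exact h4.decide

end dom

/-! ### The machine -/

section mach

variable (qU : Str × Str → ℕ → Prop) (qW : Str → ℕ → Prop) (qV : ℕ × IC → ℕ → Prop)
  (σ : ℕ → Str) (x0 : Str)

noncomputable def okB (p : Str) : Bool :=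
  decide (kOf p < p.length) && dB qU qW qV (σ (kOf p) ++ tau (kOf p)) (p.drop (kOf p + 1))

noncomputable def mach (p : Str) : Part Str :=
  ((cond (okB qU qW qV σ p) (some x0) none : Option Str) : Part Str)

theorem mem_mach (p x : Str) : x ∈ mach qU qW qV σ x0 p ↔ okB qU qW qV σ p = true ∧ x = x0 := by
  unfold mach
  cases h : okB qU qW qV σ p
  · simp
  · simp only [cond_true, Part.coe_some, Part.mem_some_iff, true_and]

theorem okB_iff (p : Str) : okB qU qW qV σ p = true ↔ kOf p < p.length ∧
    inD qU qW qV (σ (kOf p) ++ tau (kOf p)) (p.drop (kOf p + 1)) := by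
  unfold okB dB
  simp

theorem okB_tau (k : ℕ) (q : Str) : okB qU qW qV σ (tau k ++ q) = true ↔
    inD qU qW qV (σ k ++ tau k) q := by
  rw [okB_iff, kOf_tau, drop_tau]
  simp only [List.length_append, length_tau]
  constructor
  · exact fun h => h.2
  · exact fun h => ⟨by omega, h⟩

variable {qU qW qV σ}

theorem mach_partrec (hU : PrimrecRel qU) (hW : PrimrecRel qW) (hV : PrimrecRel qV)
    (hσ : Computable σ) : Partrec (mach qU qW qV σ x0) := by
  unfold mach
  refine Computable.ofOption ?_
  have h1 : Computable kOf := pr_kOf.to_comp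
  have h2 : Computable fun p : Str => σ (kOf p) ++ tau (kOf p) :=
    (Primrec.list_append (α := Bool)).to_comp.comp (hσ.comp h1) (pr_tau.to_comp.comp h1)
  have h3 : Computable fun p : Str => p.drop (kOf p + 1) :=
    (Primrec.list_drop.comp (Primrec.succ.comp pr_kOf) Primrec.id).to_comp
  have h4 : Computable fun p : Str => dB qU qW qV (σ (kOf p) ++ tau (kOf p))
      (p.drop (kOf p + 1)) := (pr_dB hU hW hV).to_comp.comp h2 h3
  have h5 : Computable fun p : Str => decide (kOf p < p.length) :=
    ((Primrec.nat_lt.comp pr_kOf Primrec.list_length).decide).to_comp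
  have h6 : Computable (okB qU qW qV σ) := by
    unfold okB
    exact (Primrec.and.to_comp).comp h5 h4
  exact Computable.cond h6 (Computable.const (some x0)) (Computable.const none)

theorem mach_pf (hU : PrimrecRel qU) (hW : PrimrecRel qW) (hV : PrimrecRel qV)
    (hσ : Computable σ) : PFMachine (mach qU qW qV σ x0) := by
  refine ⟨mach_partrec x0 hU hW hV hσ, ?_⟩
  intro p q hp hq h
  obtain ⟨x, hx⟩ := Part.dom_iff_mem.1 hp
  obtain ⟨y, hy⟩ := Part.dom_iff_mem.1 hq
  rw [mem_mach] at hx hy
  have h1 := (okB_iff qU qW qV σ p).1 hx.1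
  have h2 := (okB_iff qU qW qV σ q).1 hy.1
  have h3 := kOf_prefix h h1.1
  rw [h3] at h2
  have h4 : p.drop (kOf p + 1) <+: q.drop (kOf p + 1) := by
    obtain ⟨r, rfl⟩ := h
    rw [List.drop_append_of_le_length (by omega)]
    exact List.prefix_append _ _
  have h5 := inD_pf _ _ _ _ _ _ h1.2 h2.2 h4
  rw [eq_tau h1.1, h5]
  conv_rhs => rw [eq_tau (p := q) (by rw [h3]; exact h2.1), h3]

end mach

/-- the graph of a partial computable function is computably enumerable -/
theorem re_graph {U : Str →. Str} (hU : Partrec U) : REPred fun x : Str × Str => x.2 ∈ U x.1 := by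
  have h1 : Partrec fun x : Str × Str => (U x.1).bind fun y =>
      ((cond (decide (y = x.2)) (some ()) none : Option Unit) : Part Unit) := by
    refine Partrec.bind (hU.comp Computable.fst) ?_
    refine Computable.ofOption ?_
    refine Computable.cond ?_ (Computable.const _) (Computable.const _)
    exact ((Primrec.eq.comp Primrec.snd (Primrec.snd.comp Primrec.fst)).decide).to_comp
  refine h1.dom_re.of_eq fun x => ?_
  constructor
  · intro h
    obtain ⟨z, hz⟩ := Part.dom_iff_mem.1 h
    obtain ⟨y, hy1, hy2⟩ := Part.mem_bind_iff.1 hz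
    by_cases h2 : y = x.2
    · exact h2 ▸ hy1
    · simp [h2] at hy2
  · intro h
    refine Part.dom_iff_mem.2 ⟨(), Part.mem_bind_iff.2 ⟨x.2, h, ?_⟩⟩
    simp

end Pool.Agent.W305.RH
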