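import Mathlib
import Pool.Agent.W305.RH.Core

set_option autoImplicit false

/-!
# The nested runs: if the limit is in all the open sets, the strategy reaches the end
-/

namespace Pool.Agent.W305.RH

open Pool.Agent.H561R3.Om Classical Filter Topology

namespace Run

variable (R : Run)

/-- the normalised target -/
noncomputable def N (s j : ℕ) : ℝ := (R.E s j : ℝ) / 2 ^ (s + R.n0)

theorem N_keep {s j : ℕ} (hj : j ≤ R.T) (h : j + 1 ≠ R.lam s) : R.N (s + 1) j = R.N s j := by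
  unfold N
  rw [R.Es_ne hj h, R.double]

theorem N_act {s j : ℕ} (ha : R.am s ≠ 0) (h : j + 1 = R.lam s) :
    R.N (s + 1) j = R.e s + R.r s := by
  have := R.aT s ha
  unfold N e r
  rw [R.Es_act ha (by omega) h, R.double]
  push_cast
  ring

end Run

theorem progress (R : Run) (ρs : ℕ → ℝ) (ρ : ℝ) (V : ℕ → Set IC) (Vs : ℕ → ℕ → Set IC)
    (hVs : ∀ c t, t ∈ V c → ∀ᶠ s in atTop, t ∈ Vs s c)
    (hmax : ∀ s r, r ≤ R.E s (R.lam s) - R.E s 0 →
      (∃ t ∈ Vs s (2 * R.S s (R.lam s) + 3), ratOf t.1 < ρs s ∧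
        ρs s + (r : ℝ) / 2 ^ (s + R.n0) ≤ ratOf t.2) → r ≤ R.am s)
    (hlim : Tendsto ρs atTop (𝓝 ρ)) (hρ : ∀ c, ρ ∈ openOf (V c))
    (hn : ∀ s, R.lam s ≤ R.T) : False := by
  -- the largest level which moves infinitely often
  have h1 : ∃ l, l ≤ R.T ∧ ∃ᶠ s in atTop, R.lam s = l := by
    by_contra h
    push Not at h
    have h2 : ∀ᶠ s in atTop, ∀ l ∈ Finset.range (R.T + 1), R.lam s ≠ l := by
      rw [Filter.eventually_all_finset]
      intro l hl
      exact h l (by rw [Finset.mem_range] at hl; omega)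
    obtain ⟨s, hs⟩ := h2.exists
    exact hs (R.lam s) (Finset.mem_range.2 (by have := hn s; omega)) rfl
  obtain ⟨L, hLT, hL, hLmax⟩ : ∃ L, L ≤ R.T ∧ (∃ᶠ s in atTop, R.lam s = L) ∧
      ∀ᶠ s in atTop, R.lam s ≤ L := by
    obtain ⟨l, hl1, hl2⟩ := h1
    refine ⟨Nat.findGreatest (fun l => ∃ᶠ s in atTop, R.lam s = l) R.T, Nat.findGreatest_le _,
      Nat.findGreatest_spec (P := fun l => ∃ᶠ s in atTop, R.lam s = l) hl1 hl2, ?_⟩
    set L := Nat.findGreatest (fun l => ∃ᶠ s in atTop, R.lam s = l) R.T with hLdef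
    have h2 : ∀ᶠ s in atTop, ∀ l ∈ Finset.Ioc L R.T, R.lam s ≠ l := by
      rw [Filter.eventually_all_finset]
      intro l hl
      rw [Finset.mem_Ioc] at hl
      have := Nat.findGreatest_is_greatest (P := fun l => ∃ᶠ s in atTop, R.lam s = l)
        (hLdef ▸ hl.1) hl.2
      rwa [Filter.not_frequently] at this
    filter_upwards [h2] with s hs
    by_contra h3
    push Not at h3
    exact hs (R.lam s) (Finset.mem_Ioc.2 ⟨h3, hn s⟩) rfl
  obtain ⟨s0, hs0⟩ := eventually_atTop.1 hLmax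
  have hL1 : 1 ≤ L := by
    obtain ⟨s, hs⟩ := hL.exists
    rw [← hs]; exact R.lpos s
  -- the start of its run is constant
  have hS : ∀ s, s0 ≤ s → R.S s L = R.S s0 L := by
    intro s hs
    induction s, hs using Nat.le_induction with
    | base => rfl
    | succ s hs ih => rw [R.Ss_ge hLT (hs0 s hs), ih]
  have hN : ∀ s, s0 ≤ s → R.N s L = R.N s0 L := by
    intro s hs
    induction s, hs using Nat.le_induction with
    | base => rfl
    | succ s hs ih => rw [R.N_keep hLT (by have := hs0 s hs; omega), ih]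
  obtain ⟨t, ht, ht1, ht2⟩ := hρ (2 * R.S s0 L + 3)
  set δ : ℝ := (ratOf t.2 - ρ) / 2 with hδdef
  have hδ : 0 < δ := by rw [hδdef]; linarith
  have ev1 : ∀ᶠ s in atTop, ratOf t.1 < ρs s := hlim.eventually (lt_mem_nhds ht1)
  have ev2 : ∀ᶠ s in atTop, ρs s < ratOf t.2 - δ :=
    hlim.eventually (gt_mem_nhds (by rw [hδdef]; linarith))
  have ev3 : ∀ᶠ s in atTop, (1 : ℝ) ≤ δ * 2 ^ (s + R.n0) := by
    have : Tendsto (fun s : ℕ => δ * (2 : ℝ) ^ (s + R.n0)) atTop atTop := by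
      refine Tendsto.const_mul_atTop hδ ?_
      refine (tendsto_pow_atTop_atTop_of_one_lt (by norm_num : (1 : ℝ) < 2)).comp ?_
      exact tendsto_atTop_mono (fun s => Nat.le_add_right s R.n0) tendsto_id
    exact this.eventually_ge_atTop 1
  obtain ⟨s1, hs1⟩ := eventually_atTop.1 ((hVs _ t ht).and (ev1.and (ev2.and ev3)))
  -- one round
  have round : ∀ s, s0 ≤ s → s1 ≤ s → R.lam s = L →
      ∃ s', s ≤ s' ∧ s0 ≤ s' ∧ s1 ≤ s' ∧ R.lam s' = L ∧ R.e s + δ / 2 ≤ R.e s' := by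
    intro s h0 h1 hs
    obtain ⟨q1, q2, q3, q4⟩ := hs1 s h1
    have hpos : (0 : ℝ) < 2 ^ (s + R.n0) := by positivity
    have hfl : (⌊δ * 2 ^ (s + R.n0)⌋₊ : ℝ) ≤ δ * 2 ^ (s + R.n0) := Nat.floor_le (by positivity)
    have hfl2 : δ * 2 ^ (s + R.n0) < (⌊δ * 2 ^ (s + R.n0)⌋₊ : ℝ) + 1 := Nat.lt_floor_add_one _
    have hfl3 : 1 ≤ ⌊δ * 2 ^ (s + R.n0)⌋₊ := (Nat.one_le_floor_iff _).2 q4
    have hfl4 : (1 : ℝ) ≤ (⌊δ * 2 ^ (s + R.n0)⌋₊ : ℝ) := by exact_mod_cast hfl3
    have hsp := R.lspec s (hn s)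
    have ham : min (R.E s (R.lam s) - R.E s 0) ⌊δ * 2 ^ (s + R.n0)⌋₊ ≤ R.am s := by
      refine hmax s _ (min_le_left _ _) ⟨t, ?_, q2, ?_⟩
      · rw [hs, hS s h0]; exact q1
      · have h5 : ((min (R.E s (R.lam s) - R.E s 0) ⌊δ * 2 ^ (s + R.n0)⌋₊ : ℕ) : ℝ) ≤
            δ * 2 ^ (s + R.n0) :=
          le_trans (by exact_mod_cast min_le_right _ _) hfl
        have h6 : ((min (R.E s (R.lam s) - R.E s 0) ⌊δ * 2 ^ (s + R.n0)⌋₊ : ℕ) : ℝ) /
            2 ^ (s + R.n0) ≤ δ := by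
          rw [div_le_iff₀ hpos]; exact h5
        linarith
    have ha : R.am s ≠ 0 := by
      have : 0 < min (R.E s (R.lam s) - R.E s 0) ⌊δ * 2 ^ (s + R.n0)⌋₊ :=
        lt_min (by omega) (by omega)
      omega
    -- the next visit
    have hex : ∃ s', s < s' ∧ R.lam s' = L := by
      obtain ⟨s', h5, h6⟩ := (hL.and_eventually (eventually_gt_atTop s)).exists
      exact ⟨s', h6, h5⟩
    set s' := Nat.find hex with hs'
    have hs'1 : s < s' ∧ R.lam s' = L := Nat.find_spec hex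
    have hs'2 : ∀ u, s < u → u < s' → R.lam u ≠ L := by
      intro u hu1 hu2 hu3
      exact Nat.find_min hex hu2 ⟨hu1, hu3⟩
    have hconst : ∀ u, s + 1 ≤ u → u ≤ s' → R.N u (L - 1) = R.e s + R.r s := by
      intro u hu
      induction u, hu using Nat.le_induction with
      | base => intro _; exact R.N_act ha (by omega)
      | succ u hu ih =>
        intro hu2
        rw [R.N_keep (by omega) (by have := hs'2 u (by omega) (by omega); omega)]
        exact ih (by omega)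
    have h7 : R.N s' (L - 1) ≤ R.e s' := by
      unfold Run.N Run.e
      refine div_le_div_of_nonneg_right ?_ (by positivity)
      exact_mod_cast R.lnot s' (L - 1) (by omega)
    rw [hconst s' (by omega) le_rfl] at h7
    have h8 : R.e s' < R.N s' L := by
      unfold Run.N Run.e
      refine div_lt_div_of_pos_right ?_ (by positivity)
      have := R.lspec s' (hn s')
      rw [hs'1.2] at this
      exact_mod_cast this
    rw [hN s' (by omega), ← hN s h0] at h8
    have h9 : R.am s < R.E s L - R.E s 0 := by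
      have h10 : R.e s + R.r s < R.N s L := lt_of_le_of_lt h7 h8
      unfold Run.e Run.r Run.N at h10
      rw [← add_div, div_lt_div_iff_of_pos_right (by positivity)] at h10
      have h11 : R.E s 0 + R.am s < R.E s L := by exact_mod_cast h10
      omega
    rw [hs] at ham
    have h12 : ⌊δ * 2 ^ (s + R.n0)⌋₊ ≤ R.am s := by
      rcases min_le_iff.1 ham with h | h
      · omega
      · exact h
    refine ⟨s', hs'1.1.le, by omega, by omega, hs'1.2, ?_⟩
    have h13 : δ / 2 ≤ R.r s := by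
      unfold Run.r
      rw [le_div_iff₀ hpos]
      have : ((⌊δ * 2 ^ (s + R.n0)⌋₊ : ℕ) : ℝ) ≤ (R.am s : ℝ) := by exact_mod_cast h12
      linarith
    linarith
  obtain ⟨s2, hs2, hs2'⟩ := (hL.and_eventually
    ((eventually_ge_atTop s0).and (eventually_ge_atTop s1))).exists
  have key : ∀ k : ℕ, ∃ s, s0 ≤ s ∧ s1 ≤ s ∧ R.lam s = L ∧ (k : ℝ) * (δ / 2) ≤ R.e s := by
    intro k
    induction k with
    | zero => exact ⟨s2, hs2'.1, hs2'.2, hs2, by push_cast; have := R.e_nonneg s2; linarith⟩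
    | succ k ih =>
      obtain ⟨s, a1, a2, a3, a4⟩ := ih
      obtain ⟨s', _, b2, b3, b4, b5⟩ := round s a1 a2 a3
      refine ⟨s', b2, b3, b4, ?_⟩
      push_cast
      linarith
  obtain ⟨k, hk⟩ := exists_nat_gt (R.N s0 L / (δ / 2))
  obtain ⟨s, a1, a2, a3, a4⟩ := key k
  have h8 : R.e s < R.N s L := by
    unfold Run.N Run.e
    refine div_lt_div_of_pos_right ?_ (by positivity)
    have := R.lspec s (hn s)
    rw [a3] at this
    exact_mod_cast this
  rw [hN s a1] at h8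
  rw [div_lt_iff₀ (by positivity)] at hk
  linarith

end Pool.Agent.W305.RH
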