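import Mathlib
import Pool.Agent.W305.RH.Inv
import Pool.Agent.W305.RH.Prog
import Pool.Agent.W305.RH.Mach

set_option autoImplicit false

/-!
# Restricted halting probabilities of machines that are universal by adjunction
-/

namespace Pool.Agent.W305.RH

open Encodable Pool.Agent.Helper227 Pool.Agent.H561R3 Pool.Agent.H561R3.Om Filter Topology

open Classical

theorem nodup_upTo (b : ℕ) : (upTo b).Nodup := by
  unfold upTo
  rw [List.nodup_flatMap]
  refine ⟨fun n _ => nodup_strs n, ?_⟩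
  refine List.Pairwise.imp_of_mem ?_ (List.nodup_range (n := b + 1))
  intro a c _ _ hne x hx hy
  rw [mem_strs] at hx hy
  exact hne (hx.symm.trans hy)

section

variable (qU : Str × Str → ℕ → Prop) (qW : Str → ℕ → Prop) (qV : ℕ × IC → ℕ → Prop) (κ : Str)

theorem E_out (s : ℕ) : Ef qU qW qV κ s (TT κ + 1) = 0 := by
  unfold Ef gE
  rw [List.getD_eq_default _ _ (by rw [length_ST])]

/-- the run given by the strategy -/
noncomputable def run : Run where
  n0 := κ.length
  T := TT κ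
  E := Ef qU qW qV κ
  S := Sf qU qW qV κ
  lam := lam qU qW qV κ
  am := am qU qW qV κ
  hT := rfl
  E0 := E_zero qU qW qV κ
  S0 := S_zero qU qW qV κ
  Es := E_succ qU qW qV κ
  Ss := S_succ qU qW qV κ
  lle := lam_le qU qW qV κ
  lnot := lam_not qU qW qV κ
  lspec := lam_spec qU qW qV κ
  lpos := lam_pos qU qW qV κ
  ale := am_le qU qW qV κ
  aT := by
    intro s hs
    by_contra h
    have h1 := lam_le qU qW qV κ s
    have h2 : lam qU qW qV κ s = TT κ + 1 := by omega
    have h3 := am_le qU qW qV κ s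
    rw [h2, E_out] at h3
    omega

variable {U : Str →. Str} {X : Set Str} (hPF : ∀ p q : Str, (U p).Dom → (U q).Dom → p <+: q → p = q)
  (hU1 : ∀ a m n, m ≤ n → qU a m → qU a n) (hU2 : ∀ a : Str × Str, a.2 ∈ U a.1 ↔ ∃ n, qU a n)
  (hW1 : ∀ a m n, m ≤ n → qW a m → qW a n) (hW2 : ∀ a : Str, a ∉ X ↔ ∃ n, qW a n)

include hU1 in
theorem bornP_mono {s t : ℕ} (h : s ≤ t) {p : Str} (hp : bornP qU κ s p) : bornP qU κ t p := by
  obtain ⟨h1, h2, x, hx, h3⟩ := hp
  exact ⟨h1.trans h, h2, x, cand_mono h hx, hU1 _ _ _ h h3⟩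

include hU1 hW1 in
theorem goneP_mono {s t : ℕ} (h : s ≤ t) {p : Str} (hp : goneP qU qW κ s p) :
    goneP qU qW κ t p := by
  obtain ⟨h1, x, hx, h2, h3⟩ := hp
  exact ⟨bornP_mono qU κ hU1 h h1, x, cand_mono h hx, hU1 _ _ _ h h2, hW1 _ _ _ h h3⟩

/-- the masses -/
noncomputable def mass : Mass where
  born s := (upTo s).toFinset.filter fun p => bornP qU κ s p
  gone s := (upTo s).toFinset.filter fun p => goneP qU qW κ s p
  born_mono s t h := by
    intro p hp
    rw [Finset.mem_filter, List.mem_toFinset, mem_upTo] at hp ⊢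
    exact ⟨hp.1.trans h, bornP_mono qU κ hU1 h hp.2⟩
  gone_mono s t h := by
    intro p hp
    rw [Finset.mem_filter, List.mem_toFinset, mem_upTo] at hp ⊢
    exact ⟨hp.1.trans h, goneP_mono qU qW κ hU1 hW1 h hp.2⟩
  gone_sub s := by
    intro p hp
    rw [Finset.mem_filter] at hp ⊢
    exact ⟨hp.1, hp.2.1⟩
  len s p hp := by
    rw [Finset.mem_filter, List.mem_toFinset, mem_upTo] at hp
    exact hp.1
  pf s p hp q hq h := by
    rw [Finset.mem_filter] at hp hq
    obtain ⟨_, _, _, x, _, hx⟩ := hp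
    obtain ⟨_, _, _, y, _, hy⟩ := hq
    exact hPF p q (Part.dom_iff_mem.2 ⟨x, (hU2 (p, x)).2 ⟨s, hx⟩⟩)
      (Part.dom_iff_mem.2 ⟨y, (hU2 (q, y)).2 ⟨s, hy⟩⟩) h

theorem mem_born {s : ℕ} {p : Str} : p ∈ (mass qU qW κ hPF hU1 hU2 hW1).born s ↔
    bornP qU κ s p := by
  show p ∈ (upTo s).toFinset.filter (fun p => bornP qU κ s p) ↔ _
  rw [Finset.mem_filter, List.mem_toFinset, mem_upTo]
  exact ⟨fun h => h.2, fun h => ⟨h.1, h⟩⟩

theorem mem_gone {s : ℕ} {p : Str} : p ∈ (mass qU qW κ hPF hU1 hU2 hW1).gone s ↔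
    goneP qU qW κ s p := by
  show p ∈ (upTo s).toFinset.filter (fun p => goneP qU qW κ s p) ↔ _
  rw [Finset.mem_filter, List.mem_toFinset, mem_upTo]
  exact ⟨fun h => h.2, fun h => ⟨h.1.1, h⟩⟩

theorem nb_eq (s : ℕ) : (nb qU qW κ s : ℝ) / 2 ^ s =
    (mass qU qW κ hPF hU1 hU2 hW1).B s s := by
  have h1 : nb qU qW κ s = ∑ p ∈ (upTo s).toFinset,
      if bornP qU κ s p ∧ ¬ goneP qU qW κ s p then 2 ^ (s - p.length) else 0 := by
    unfold nb
    rw [List.sum_toFinset _ (nodup_upTo s)]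
  rw [h1, ← Finset.sum_filter]
  have h2 : (upTo s).toFinset.filter (fun p => bornP qU κ s p ∧ ¬ goneP qU qW κ s p) =
      (mass qU qW κ hPF hU1 hU2 hW1).born s \ (mass qU qW κ hPF hU1 hU2 hW1).gone s := by
    ext p
    rw [Finset.mem_sdiff, mem_born, mem_gone, Finset.mem_filter, List.mem_toFinset, mem_upTo]
    exact ⟨fun h => h.2, fun h => ⟨h.1.1, h⟩⟩
  rw [h2]
  unfold Mass.B
  push_cast
  rw [Finset.sum_div]
  refine Finset.sum_congr rfl fun p hp => ?_
  have h3 := (mass qU qW κ hPF hU1 hU2 hW1).len s p (Finset.sdiff_subset hp)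
  unfold w
  rw [one_div, inv_pow, pow_sub₀ _ (by norm_num) h3]
  field_simp

theorem NN_eq (s : ℕ) : (NN qU qW κ s (Ef qU qW qV κ s 0) : ℝ) / 2 ^ (s + κ.length) =
    (run qU qW qV κ).e s + (mass qU qW κ hPF hU1 hU2 hW1).B s s := by
  rw [← nb_eq]
  unfold NN Run.e
  show _ = (Ef qU qW qV κ s 0 : ℝ) / 2 ^ (s + κ.length) + _
  push_cast
  rw [pow_add]
  field_simp
  ring

theorem ratOf_lt (t : ℕ × ℕ × ℕ) (N D : ℕ) (hD : 0 < D) :
    t.1 * D < N * (t.2.2 + 1) + t.2.1 * D ↔ ratOf t < (N : ℝ) / D := by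
  unfold ratOf
  have h1 : (0 : ℝ) < (t.2.2 : ℝ) + 1 := by positivity
  have h2 : (0 : ℝ) < D := by exact_mod_cast hD
  rw [div_lt_div_iff₀ h1 h2]
  constructor
  · intro h
    have : ((t.1 * D : ℕ) : ℝ) < ((N * (t.2.2 + 1) + t.2.1 * D : ℕ) : ℝ) := by exact_mod_cast h
    push_cast at this
    linarith
  · intro h
    have : ((t.1 * D : ℕ) : ℝ) < ((N * (t.2.2 + 1) + t.2.1 * D : ℕ) : ℝ) := by
      push_cast
      linarith
    exact_mod_cast this

theorem le_ratOf (t : ℕ × ℕ × ℕ) (N D : ℕ) (hD : 0 < D) :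
    N * (t.2.2 + 1) + t.2.1 * D ≤ t.1 * D ↔ (N : ℝ) / D ≤ ratOf t := by
  unfold ratOf
  have h1 : (0 : ℝ) < (t.2.2 : ℝ) + 1 := by positivity
  have h2 : (0 : ℝ) < D := by exact_mod_cast hD
  rw [div_le_div_iff₀ h2 h1]
  constructor
  · intro h
    have : ((N * (t.2.2 + 1) + t.2.1 * D : ℕ) : ℝ) ≤ ((t.1 * D : ℕ) : ℝ) := by exact_mod_cast h
    push_cast at this
    linarith
  · intro h
    have : ((N * (t.2.2 + 1) + t.2.1 * D : ℕ) : ℝ) ≤ ((t.1 * D : ℕ) : ℝ) := by
      push_cast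
      linarith
    exact_mod_cast this

theorem Act_iff (s c r : ℕ) : Act qU qW qV κ s (Ef qU qW qV κ s 0) c r ↔
    ∃ t ∈ cand IC s, qV (c, t) s ∧
      ratOf t.1 < (run qU qW qV κ).e s + (mass qU qW κ hPF hU1 hU2 hW1).B s s ∧
      (run qU qW qV κ).e s + (mass qU qW κ hPF hU1 hU2 hW1).B s s +
        (r : ℝ) / 2 ^ (s + κ.length) ≤ ratOf t.2 := by
  have h1 := NN_eq qU qW qV κ hPF hU1 hU2 hW1 s
  rw [← h1]
  unfold Act
  have hD : 0 < 2 ^ (s + κ.length) := by positivity
  have e1 : ∀ t : IC, t.1.1 * 2 ^ (s + κ.length) <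
      NN qU qW κ s (Ef qU qW qV κ s 0) * (t.1.2.2 + 1) + t.1.2.1 * 2 ^ (s + κ.length) ↔
      ratOf t.1 < (NN qU qW κ s (Ef qU qW qV κ s 0) : ℝ) / 2 ^ (s + κ.length) := by
    intro t
    rw [ratOf_lt t.1 _ _ hD]
    push_cast
    rfl
  have e2 : ∀ t : IC, (NN qU qW κ s (Ef qU qW qV κ s 0) + r) * (t.2.2.2 + 1) +
      t.2.2.1 * 2 ^ (s + κ.length) ≤ t.2.1 * 2 ^ (s + κ.length) ↔
      (NN qU qW κ s (Ef qU qW qV κ s 0) : ℝ) / 2 ^ (s + κ.length) +
        (r : ℝ) / 2 ^ (s + κ.length) ≤ ratOf t.2 := by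
    intro t
    rw [le_ratOf t.2 _ _ hD]
    push_cast
    rw [add_div]
  simp only [e1, e2]

/-! ### The mass of the machine -/

noncomputable def DS (s : ℕ) : Finset Str :=
  (upTo s).toFinset.filter fun q => q.length < s ∧ inD qU qW qV κ q

theorem mem_DS {s : ℕ} {q : Str} : q ∈ DS qU qW qV κ s ↔ q.length < s ∧ inD qU qW qV κ q := by
  unfold DS
  rw [Finset.mem_filter, List.mem_toFinset, mem_upTo]
  exact ⟨fun h => h.2, fun h => ⟨h.1.le, h⟩⟩

theorem DS_succ (s : ℕ) : DS qU qW qV κ (s + 1) = DS qU qW qV κ s ∪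
    (FS s).filter (fun q => inD qU qW qV κ q) := by
  ext q
  rw [Finset.mem_union, mem_DS, mem_DS, Finset.mem_filter, mem_FS]
  constructor
  · rintro ⟨h1, h2⟩
    rcases Nat.lt_or_ge q.length s with h | h
    · exact Or.inl ⟨h, h2⟩
    · exact Or.inr ⟨by omega, h2⟩
  · rintro (⟨h1, h2⟩ | ⟨h1, h2⟩)
    · exact ⟨by omega, h2⟩
    · exact ⟨by omega, h2⟩

theorem DS_card (s : ℕ) (hs : Ef qU qW qV κ (s + 1) 0 ≤ 2 ^ (s + 1)) :
    2 * Ef qU qW qV κ s 0 + 2 * ((FS s).filter (fun q => inD qU qW qV κ q)).card =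
      Ef qU qW qV κ (s + 1) 0 := by
  obtain ⟨a, ha⟩ : ∃ a, Ef qU qW qV κ (s + 1) 0 = 2 * (Ef qU qW qV κ s 0 + a) := by
    rw [E_succ _ _ _ _ _ _ (Nat.zero_le _)]
    split_ifs
    · exact ⟨0, rfl⟩
    · exact ⟨_, rfl⟩
    · exact ⟨0, rfl⟩
  have h1 : (((FS s).filter (fun q => inD qU qW qV κ q)).image val) =
      Finset.Ico (Ef qU qW qV κ s 0) (Ef qU qW qV κ s 0 + a) := by
    ext m
    rw [Finset.mem_image, Finset.mem_Ico]
    constructor
    · rintro ⟨q, hq, rfl⟩
      rw [Finset.mem_filter, mem_FS] at hq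
      obtain ⟨h1, h2, h3⟩ := hq
      rw [h1] at h2 h3
      omega
    · rintro ⟨h2, h3⟩
      rw [pow_succ] at hs
      obtain ⟨q, hq1, hq2⟩ := val_surj s m (by omega)
      refine ⟨q, ?_, hq2⟩
      rw [Finset.mem_filter, mem_FS]
      refine ⟨hq1, ?_, ?_⟩
      · rw [hq1]; omega
      · rw [hq1]; omega
  have h2 : ((FS s).filter (fun q => inD qU qW qV κ q)).card = a := by
    rw [← Finset.card_image_of_injOn (f := val), h1, Nat.card_Ico]
    · omega
    · intro q hq r hr h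
      have hq' := (Finset.mem_filter.1 (Finset.mem_coe.1 hq)).1
      have hr' := (Finset.mem_filter.1 (Finset.mem_coe.1 hr)).1
      rw [mem_FS] at hq' hr'
      exact val_inj s q r hq' hr' h
  omega

theorem DS_sum (hE : ∀ s, Ef qU qW qV κ s 0 ≤ 2 ^ s) (s : ℕ) :
    ∑ q ∈ DS qU qW qV κ s, (1 / 2 : ℝ) ^ q.length = (Ef qU qW qV κ s 0 : ℝ) / 2 ^ s := by
  induction s with
  | zero =>
    have h1 : DS qU qW qV κ 0 = ∅ := by
      ext q; rw [mem_DS]; simp
    have h2 : Ef qU qW qV κ 0 0 = 0 := by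
      rw [E_zero _ _ _ _ _ (Nat.zero_le _), if_neg]
      unfold TT; positivity
    rw [h1, h2]; simp
  | succ s ih =>
    rw [DS_succ, Finset.sum_union, ih]
    · have h1 : ∑ q ∈ (FS s).filter (fun q => inD qU qW qV κ q), (1 / 2 : ℝ) ^ q.length =
          ((FS s).filter (fun q => inD qU qW qV κ q)).card * (1 / 2 : ℝ) ^ s := by
        rw [← nsmul_eq_mul, ← Finset.sum_const]
        refine Finset.sum_congr rfl fun q hq => ?_
        rw [Finset.mem_filter, mem_FS] at hq
        rw [hq.1]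
      rw [h1]
      have h2 := DS_card qU qW qV κ s (hE (s + 1))
      rw [← h2]
      push_cast
      rw [pow_succ, one_div, inv_pow]
      field_simp
    · rw [Finset.disjoint_left]
      intro q h1 h2
      rw [mem_DS] at h1
      rw [Finset.mem_filter, mem_FS] at h2
      omega

end

/-! ### The limit and the conclusion -/

section

variable {U : Str →. Str} {X : Set Str}

theorem main (hU : UniversalByAdjunction U) (hX : REPred fun x => x ∉ X) (h0 : 0 < Omega U X) :
    MLRandomReal (Omega U X) := by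
  obtain ⟨⟨hUp, hPF⟩, M, σ, _, hM, hall, hσ, hpre, hadj⟩ := hU
  intro V hV
  by_contra hcon
  push Not at hcon
  obtain ⟨hV1, hV2⟩ := hV
  -- an element of `X`
  obtain ⟨x0, hx0⟩ : ∃ x0, x0 ∈ X := by
    by_contra h
    push Not at h
    have : Omega U X = 0 := by
      unfold Omega
      have h1 : {p : Str | ∃ x ∈ X, x ∈ U p} = ∅ := by
        ext p
        simp only [Set.mem_setOf_eq, Set.mem_empty_iff_false, iff_false]
        rintro ⟨x, hx, _⟩
        exact h x hx
      rw [h1]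
      simp
    rw [this] at h0
    exact lt_irrefl _ h0
  -- the enumerations
  obtain ⟨qU, hqU, hU1, hU2⟩ := S1.of_re (re_graph hUp)
  obtain ⟨qW, hqW, hW1, hW2⟩ := S1.of_re hX
  obtain ⟨qV, hqV, hqV1, hqV2⟩ := S1.of_re hV1
  -- the machine
  obtain ⟨e, he⟩ := hall _ (mach_pf x0 hqU hqW hqV hσ)
  set κ : Str := σ e ++ tau e with hκ
  have hUκ : ∀ q x, x ∈ U (κ ++ q) ↔ inD qU qW qV κ q ∧ x = x0 := by
    intro q x
    rw [hκ, List.append_assoc, hadj, he, mem_mach, okB_tau]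
  set R := run qU qW qV κ with hR
  set Q := mass qU qW κ hPF hU1 hU2 hW1 with hQ
  have hact : ∀ s, R.am s ≠ 0 → ∃ t ∈ V (2 * R.S s (R.lam s) + 3),
      ratOf t.1 < R.e s + Q.B s s ∧ R.e s + Q.B s s + R.r s ≤ ratOf t.2 := by
    intro s hs
    have h1 := (Act_iff qU qW qV κ hPF hU1 hU2 hW1 s _ _).1 (am_act qU qW qV κ s hs)
    obtain ⟨t, _, h2, h3, h4⟩ := h1
    exact ⟨t, (hqV2 _).2 ⟨s, h2⟩, h3, h4⟩
  have hlam := never hV2 hact
  have hE : ∀ s, Ef qU qW qV κ s 0 ≤ 2 ^ s := by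
    intro s
    have h1 := R.lspec s (hlam s)
    have h2 := R.mono s (R.lam s) R.T le_rfl (hlam s) le_rfl
    rw [R.E_top] at h2
    exact h1.le.trans h2
  -- the limit
  have hlim : Tendsto (fun s => R.e s + Q.B s s) atTop (𝓝 (Omega U X)) := by
    have hL := tendsto_live (D := {p | (U p).Dom}) (fun p hp q hq h => hPF p q hp hq h)
      (fun s => (Q.born s \ Q.gone s) ∪ (DS qU qW qV κ s).image (fun q => κ ++ q))
      {p | ∃ x ∈ X, x ∈ U p} ?_ ?_
    · have h1 : ∀ s, ∑ p ∈ (Q.born s \ Q.gone s) ∪ (DS qU qW qV κ s).image (fun q => κ ++ q),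
          (1 / 2 : ℝ) ^ p.length = R.e s + Q.B s s := by
        intro s
        rw [Finset.sum_union, Finset.sum_image, add_comm]
        · congr 1
          have h2 := DS_sum qU qW qV κ hE s
          have h3 : R.e s = (Ef qU qW qV κ s 0 : ℝ) / 2 ^ s * (1 / 2 : ℝ) ^ κ.length := by
            show (Ef qU qW qV κ s 0 : ℝ) / 2 ^ (s + κ.length) = _
            rw [pow_add, one_div, inv_pow]
            field_simp
          rw [h3, ← h2, Finset.sum_mul]
          refine Finset.sum_congr rfl fun q _ => ?_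
          rw [List.length_append, pow_add, mul_comm]
        · intro q _ r _ h
          exact List.append_cancel_left h
        · rw [Finset.disjoint_left]
          intro p hp hq
          rw [Finset.mem_image] at hq
          obtain ⟨q, _, rfl⟩ := hq
          have h4 := (mem_born qU qW κ hPF hU1 hU2 hW1).1 (Finset.sdiff_subset hp)
          exact h4.2.1 (List.prefix_append _ _)
      refine (tendsto_congr h1).1 ?_
      exact hL
    · intro s p hp
      rw [Finset.mem_union] at hp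
      rcases hp with hp | hp
      · have h4 := (mem_born qU qW κ hPF hU1 hU2 hW1).1 (Finset.sdiff_subset hp)
        obtain ⟨_, _, x, _, hx⟩ := h4
        exact Part.dom_iff_mem.2 ⟨x, (hU2 (p, x)).2 ⟨s, hx⟩⟩
      · rw [Finset.mem_image] at hp
        obtain ⟨q, hq, rfl⟩ := hp
        rw [mem_DS] at hq
        exact Part.dom_iff_mem.2 ⟨x0, (hUκ q x0).2 ⟨hq.2, rfl⟩⟩
    · intro p
      by_cases hp : κ <+: p
      · obtain ⟨q, rfl⟩ := hp
        filter_upwards [eventually_gt_atTop q.length] with s hs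
        rw [Finset.mem_union, Finset.mem_image]
        constructor
        · rintro (h | ⟨q', h1, h2⟩)
          · exfalso
            have h4 := (mem_born qU qW κ hPF hU1 hU2 hW1).1 (Finset.sdiff_subset h)
            exact h4.2.1 (List.prefix_append _ _)
          · rw [mem_DS] at h1
            have h3 := List.append_cancel_left h2
            subst h3
            exact ⟨x0, hx0, (hUκ _ x0).2 ⟨h1.2, rfl⟩⟩
        · rintro ⟨x, _, h1⟩
          exact Or.inr ⟨q, (mem_DS _ _ _ _).2 ⟨hs, ((hUκ q x).1 h1).1⟩, rfl⟩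
      · have hnot : ∀ s, p ∉ (DS qU qW qV κ s).image (fun q => κ ++ q) := by
          intro s h
          rw [Finset.mem_image] at h
          obtain ⟨q, _, rfl⟩ := h
          exact hp (List.prefix_append _ _)
        by_cases hA : ∃ x ∈ X, x ∈ U p
        · obtain ⟨x, hx, hxp⟩ := hA
          obtain ⟨n, hn⟩ := (hU2 (p, x)).1 hxp
          filter_upwards [eventually_ge_atTop n, eventually_ge_atTop p.length,
            eventually_gt_atTop (encode x)] with s h1 h2 h3
          refine ⟨fun _ => ⟨x, hx, hxp⟩, fun _ => ?_⟩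
          rw [Finset.mem_union, Finset.mem_sdiff]
          left
          refine ⟨(mem_born qU qW κ hPF hU1 hU2 hW1).2 ⟨h2, hp, x, mem_cand_of_encode h3,
            hU1 _ _ _ h1 hn⟩, fun h4 => ?_⟩
          obtain ⟨_, y, _, h5, h6⟩ := (mem_gone qU qW κ hPF hU1 hU2 hW1).1 h4
          have h7 : y ∈ U p := (hU2 (p, y)).2 ⟨s, h5⟩
          have h8 : y = x := Part.mem_unique h7 hxp
          subst h8
          exact (hW2 y).2 ⟨s, h6⟩ hx
        · by_cases hd : (U p).Dom
          · obtain ⟨x, hxp⟩ := Part.dom_iff_mem.1 hd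
            have hxX : x ∉ X := fun h => hA ⟨x, h, hxp⟩
            obtain ⟨n, hn⟩ := (hU2 (p, x)).1 hxp
            obtain ⟨n', hn'⟩ := (hW2 x).1 hxX
            filter_upwards [eventually_ge_atTop n, eventually_ge_atTop p.length,
              eventually_gt_atTop (encode x), eventually_ge_atTop n'] with s h1 h2 h3 h4
            refine ⟨fun h => ?_, fun h => absurd h hA⟩
            exfalso
            rw [Finset.mem_union, Finset.mem_sdiff] at h
            rcases h with h | h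
            · refine h.2 ((mem_gone qU qW κ hPF hU1 hU2 hW1).2 ⟨⟨h2, hp, x,
                mem_cand_of_encode h3, hU1 _ _ _ h1 hn⟩, x, mem_cand_of_encode h3,
                hU1 _ _ _ h1 hn, hW1 _ _ _ h4 hn'⟩)
            · exact hnot s h
          · refine Eventually.of_forall fun s => ⟨fun h => ?_, fun h => absurd h hA⟩
            exfalso
            rw [Finset.mem_union, Finset.mem_sdiff] at h
            rcases h with h | h
            · obtain ⟨_, _, x, _, hx⟩ := (mem_born qU qW κ hPF hU1 hU2 hW1).1 h.1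
              exact hd (Part.dom_iff_mem.2 ⟨x, (hU2 (p, x)).2 ⟨s, hx⟩⟩)
            · exact hnot s h
  -- the contradiction
  refine progress R (fun s => R.e s + Q.B s s) (Omega U X) V
    (fun s c => {t | t ∈ cand IC s ∧ qV (c, t) s}) ?_ ?_ hlim hcon hlam
  · intro c t ht
    obtain ⟨n, hn⟩ := (hqV2 (c, t)).1 ht
    filter_upwards [eventually_ge_atTop n, eventually_gt_atTop (encode t)] with s h1 h2
    exact ⟨mem_cand_of_encode h2, hqV1 _ _ _ h1 hn⟩
  · intro s r hr h
    obtain ⟨t, ⟨h1, h2⟩, h3, h4⟩ := h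
    exact am_max qU qW qV κ s r hr ((Act_iff qU qW qV κ hPF hU1 hU2 hW1 s _ _).2
      ⟨t, h1, h2, h3, h4⟩)

end

end Pool.Agent.W305.RH
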